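import Pool.Agent.W350.SC.Stm

set_option autoImplicit false

namespace Pool.Agent.W350.SC.PCARD

open Pool.Agent.W350.SC

theorem deg (m : ℕ) (u : V m) : (G m).degree u = 3 := by
  have h1 : (G m).neighborFinset u = Finset.univ.image (nbr u) := by
    ext v
    rw [SimpleGraph.mem_neighborFinset, Finset.mem_image]
    constructor
    · rintro ⟨p, hp⟩
      exact ⟨p, Finset.mem_univ _, hp⟩
    · rintro ⟨p, -, hp⟩
      exact ⟨p, hp⟩
  rw [← SimpleGraph.card_neighborFinset_eq_degree, h1, Finset.card_image_of_injective, Finset.card_univ,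
    Fintype.card_fin]
  intro p q hpq
  exact nv_inj u.2 p q (congrArg Prod.snd hpq)

end Pool.Agent.W350.SC.PCARD

namespace Pool.Agent.W350.SC

theorem pCARD : S_Card := by
  intro m
  have h := (G m).sum_degrees_eq_twice_card_edges
  rw [Finset.sum_congr rfl (fun u _ => PCARD.deg m u), Finset.sum_const, Finset.card_univ,
    Fintype.card_prod, Fintype.card_fin, Fintype.card_fin, smul_eq_mul] at h
  omega

end Pool.Agent.W350.SC
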