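import Pool.Agent.W350.SC.Stm

set_option autoImplicit false

namespace Pool.Agent.W350.SC.PCOL

lemma gen {W : Type} [Fintype W] [DecidableEq W] (H : SimpleGraph W) [DecidableRel H.Adj]
    (hreg : H.IsRegularOfDegree 3) (f : H.lineGraph.Coloring (Fin 3)) :
    ∃ C : Fin 2 → Finset (Sym2 W), (∀ i, C i ⊆ H.edgeFinset) ∧
      (∀ i v, ((C i).filter (fun e => v ∈ e)).card = 2) ∧ ∀ e ∈ H.edgeFinset, ∃ i, e ∈ C i := by
  classical
  let col : Sym2 W → Fin 3 := fun e => if h : e ∈ H.edgeSet then f ⟨e, h⟩ else 0
  have hcol : ∀ e (h : e ∈ H.edgeSet), col e = f ⟨e, h⟩ := fun e h => dif_pos h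
  let cc : Fin 2 → Fin 3 := ![0, 1]
  have hinj : ∀ v : W, Set.InjOn col (H.incidenceFinset v : Set (Sym2 W)) := by
    intro v e he e' he' hee
    rw [Finset.mem_coe, SimpleGraph.mem_incidenceFinset] at he he'
    by_contra hne
    rw [hcol e he.1, hcol e' he'.1] at hee
    have hadj : H.lineGraph.Adj ⟨e, he.1⟩ ⟨e', he'.1⟩ := by
      rw [SimpleGraph.lineGraph_adj_iff_exists]
      refine ⟨fun h => hne (congrArg Subtype.val h), v, he.2, he'.2⟩
    exact f.valid hadj hee
  have himg : ∀ v : W, (H.incidenceFinset v).image col = Finset.univ := by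
    intro v
    rw [← Finset.card_eq_iff_eq_univ, Finset.card_image_of_injOn (hinj v),
      SimpleGraph.card_incidenceFinset_eq_degree, hreg v]
    simp
  refine ⟨fun i => H.edgeFinset.filter (fun e => col e ≠ cc i), fun i => Finset.filter_subset _ _,
    ?_, ?_⟩
  · intro i v
    have h1 : (H.edgeFinset.filter (fun e => col e ≠ cc i)).filter (fun e => v ∈ e)
        = (H.incidenceFinset v).filter (fun e => col e ≠ cc i) := by
      ext e
      simp only [Finset.mem_filter, SimpleGraph.mem_edgeFinset, SimpleGraph.mem_incidenceFinset,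
        SimpleGraph.incidenceSet, Set.mem_setOf_eq]
      tauto
    rw [h1]
    have h2 : ((H.incidenceFinset v).filter (fun e => col e ≠ cc i)).card
        = (((H.incidenceFinset v).filter (fun e => col e ≠ cc i)).image col).card := by
      rw [Finset.card_image_of_injOn]
      intro e he e' he' hee
      exact hinj v (Finset.mem_of_mem_filter e he) (Finset.mem_of_mem_filter e' he') hee
    have h3 : ((H.incidenceFinset v).filter (fun e => col e ≠ cc i)).image col
        = Finset.univ.filter (fun c => c ≠ cc i) := by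
      ext c
      simp only [Finset.mem_image, Finset.mem_filter, Finset.mem_univ, true_and]
      constructor
      · rintro ⟨e, ⟨-, he⟩, rfl⟩
        exact he
      · intro hc
        have h4 : c ∈ (H.incidenceFinset v).image col := by rw [himg v]; exact Finset.mem_univ c
        obtain ⟨e, he, hec⟩ := Finset.mem_image.1 h4
        exact ⟨e, ⟨he, by rw [hec]; exact hc⟩, hec⟩
    rw [h2, h3]
    fin_cases i <;> decide
  · intro e he
    by_cases h : col e = 0
    · refine ⟨1, Finset.mem_filter.2 ⟨he, ?_⟩⟩
      rw [h]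
      decide
    · exact ⟨0, Finset.mem_filter.2 ⟨he, h⟩⟩

end Pool.Agent.W350.SC.PCOL

namespace Pool.Agent.W350.SC

theorem pCOL : S_Col := by
  intro hH hL hR m hc
  obtain ⟨f⟩ := hc
  obtain ⟨C, h1, h2, h3⟩ := PCOL.gen (G m) (hR m) f
  have h4 := hL m 2 C h1 (fun i v => by rw [h2 i v]; decide) h3
  have h5 := hH (V m) (G m) 2 C h1
  simp only [h2, Finset.sum_const, Finset.card_univ, Fintype.card_fin, smul_eq_mul,
    Fintype.card_prod] at h5
  omega

end Pool.Agent.W350.SC
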