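import Pool.Agent.W350.SC.Stm

set_option autoImplicit false

/-! # The lower bound for the length of an even cover -/

namespace Pool.Agent.W350.SC

namespace PCOV

/-- a representative of every edge of the fragment -/
def repL : List (ℕ × ℕ) :=
  [(0, 0), (1, 1), (6, 0), (3, 0), (7, 1), (8, 1), (4, 0), (4, 1), (6, 1), (5, 1), (7, 2), (0, 1),
   (2, 1), (1, 2), (11, 0), (8, 2), (4, 2), (16, 0), (17, 0), (13, 0), (13, 1), (18, 2), (14, 1),
   (14, 2), (16, 1), (15, 1), (17, 1), (2, 2), (0, 2), (21, 0), (21, 1), (26, 1), (22, 1), (22, 2),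
   (27, 1), (23, 1), (23, 2), (25, 0), (24, 1), (26, 2), (13, 2), (17, 2), (30, 0), (21, 2), (25,
   2), (12, 1), (32, 0), (31, 2), (24, 2), (37, 0), (38, 0), (34, 0), (34, 1), (39, 2), (35, 1),
   (35, 2), (37, 1), (36, 1), (38, 1), (12, 2), (3, 2), (38, 2), (43, 0), (34, 2), (42, 1), (32,
   2), (49, 0), (50, 0), (46, 0), (46, 1), (51, 2), (47, 1), (47, 2), (49, 1), (48, 1), (50, 1),
   (33, 2), (42, 2), (45, 1), (57, 0), (58, 0), (54, 0), (54, 1), (59, 2), (55, 1), (55, 2), (57,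
   1), (56, 1), (58, 1), (45, 2), (48, 2), (62, 0), (62, 1), (67, 1), (63, 1), (63, 2), (68, 1),
   (64, 1), (64, 2), (66, 0), (65, 1), (67, 2), (43, 2), (44, 2), (62, 2), (72, 0), (71, 1), (65,
   2), (66, 2), (57, 2), (71, 2), (56, 2), (72, 2)]

/-- the vertex of the representative -/
def rv (e : ℕ) : Fin 74 := Fin.ofNat 74 (repL.getD e (0, 0)).1

/-- the number of the representative -/
def rp (e : ℕ) : Fin 3 := Fin.ofNat 3 (repL.getD e (0, 0)).2

theorem rep_ok : ∀ (a : Fin 74) (p : Fin 3),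
    (rv (ed a p) = a ∧ rp (ed a p) = p) ∨
    (dl a p = 0 ∧ nv a p = rv (ed a p) ∧ dl (rv (ed a p)) (rp (ed a p)) = 0 ∧
      nv (rv (ed a p)) (rp (ed a p)) = a) := by decide +kernel

section

variable {m k : ℕ} (C : Fin k → Finset (Sym2 (V m)))

/-- the cycles through the edge number `p` at `u` -/
def X (u : V m) (p : Fin 3) : Finset (Fin k) := Finset.univ.filter fun c => s(u, nbr u p) ∈ C c

theorem mem_X (u : V m) (p : Fin 3) (c : Fin k) : c ∈ X C u p ↔ s(u, nbr u p) ∈ C c := by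
  simp [X]

theorem nbr_inj (u : V m) (p q : Fin 3) (h : nbr u p = nbr u q) : p = q :=
  nv_inj u.2 p q (congrArg Prod.snd h)

/-- the labels agree with those of the representatives -/
theorem X_rep (i : Fin (m + 3)) (a : Fin 74) (p : Fin 3) :
    X C (i, rv (ed a p)) (rp (ed a p)) = X C (i, a) p := by
  rcases rep_ok a p with ⟨h1, h2⟩ | ⟨h1, h2, h3, h4⟩
  · rw [h1, h2]
  · have e1 : nbr ((i, a) : V m) p = (i, rv (ed a p)) := by
      unfold nbr
      refine Prod.ext ?_ h2
      show sh i (dl a p) = i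
      rw [h1]
      simp [sh]
    have e2 : nbr ((i, rv (ed a p)) : V m) (rp (ed a p)) = (i, a) := by
      unfold nbr
      refine Prod.ext ?_ h4
      show sh i (dl (rv (ed a p)) (rp (ed a p))) = i
      rw [h3]
      simp [sh]
    unfold X
    rw [e1, e2, Sym2.eq_swap]

variable (h1 : ∀ i, C i ⊆ (G m).edgeFinset)

include h1

/-- the edges of a cycle at a vertex -/
theorem card_at (c : Fin k) (u : V m) : ((C c).filter (fun e => u ∈ e)).card =
    (Finset.univ.filter (fun p : Fin 3 => c ∈ X C u p)).card := by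
  symm
  refine Finset.card_bij (fun p _ => s(u, nbr u p)) ?_ ?_ ?_
  · intro p hp
    rw [Finset.mem_filter] at hp ⊢
    exact ⟨(mem_X C u p c).mp hp.2, Sym2.mem_mk_left _ _⟩
  · intro p _ q _ h
    rw [Sym2.congr_right] at h
    exact nbr_inj u p q h
  · intro e he
    rw [Finset.mem_filter] at he
    obtain ⟨he, hu⟩ := he
    obtain ⟨v, rfl⟩ := hu
    have h2 : (G m).Adj u v := by
      have := h1 c he
      rwa [SimpleGraph.mem_edgeFinset, SimpleGraph.mem_edgeSet] at this
    obtain ⟨p, hp⟩ := h2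
    subst hp
    refine ⟨p, ?_, rfl⟩
    rw [Finset.mem_filter]
    exact ⟨Finset.mem_univ _, (mem_X C u p c).mpr he⟩

omit h1 in
theorem card_three (P : Fin 3 → Prop) [DecidablePred P] :
    (Finset.univ.filter P).card = (if P 0 then 1 else 0) + (if P 1 then 1 else 0) +
      (if P 2 then 1 else 0) := by
  rw [Finset.card_filter, Fin.sum_univ_three]

/-- the number of edges, with multiplicities, at a vertex -/
theorem cov_eq (u : V m) : ∑ c, ((C c).filter (fun e => u ∈ e)).card =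
    (X C u 0).card + (X C u 1).card + (X C u 2).card := by
  have e1 : ∀ p, (X C u p).card = ∑ c : Fin k, if c ∈ X C u p then 1 else 0 := by
    intro p
    rw [Finset.sum_ite_mem, Finset.univ_inter, Finset.sum_const, smul_eq_mul, mul_one]
  rw [e1 0, e1 1, e1 2, ← Finset.sum_add_distrib, ← Finset.sum_add_distrib]
  refine Finset.sum_congr rfl fun c _ => ?_
  rw [card_at C h1 c u, card_three]

theorem pattern (h2 : ∀ i, ∀ v : V m, Even ((C i).filter (fun e => v ∈ e)).card) (u : V m)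
    (c : Fin k) : (c ∈ X C u 0 ∧ c ∈ X C u 1 ∧ c ∉ X C u 2) ∨
      (c ∈ X C u 0 ∧ c ∉ X C u 1 ∧ c ∈ X C u 2) ∨ (c ∉ X C u 0 ∧ c ∈ X C u 1 ∧ c ∈ X C u 2) ∨
      (c ∉ X C u 0 ∧ c ∉ X C u 1 ∧ c ∉ X C u 2) := by
  have h := h2 c u
  rw [card_at C h1 c u, card_three] at h
  by_cases a0 : c ∈ X C u 0 <;> by_cases a1 : c ∈ X C u 1 <;> by_cases a2 : c ∈ X C u 2 <;>
    simp [a0, a1, a2] at h ⊢
  · exact absurd h (by decide)

end

end PCOV

open PCOV in
theorem pCOV : S_Cov := by
  intro hH hL hD m k C h1 h2 h3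
  have hadj : ∀ (u : V m) (p : Fin 3), (G m).Adj u (nbr u p) := fun u p => ⟨p, rfl⟩
  have hne : ∀ (u : V m) (p : Fin 3), (X C u p).Nonempty := by
    intro u p
    obtain ⟨i, hi⟩ := h3 s(u, nbr u p) (by
      rw [SimpleGraph.mem_edgeFinset, SimpleGraph.mem_edgeSet]
      exact hadj u p)
    exact ⟨i, (mem_X C u p i).mpr hi⟩
  have hloc := fun u : V m => hL (Fin k) (X C u 0) (X C u 1) (X C u 2) (hne u 0) (hne u 1)
    (hne u 2) (pattern C h1 h2 u)
  have hcopy : ∀ i : Fin (m + 3), ∃ a : Fin 74,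
      6 ≤ (X C (i, a) 0).card + (X C (i, a) 1).card + (X C (i, a) 2).card := by
    intro i
    by_contra hcon
    push Not at hcon
    refine hD (Fin k) (fun e => X C (i, rv e) (rp e)) fun a => ?_
    simp only [X_rep]
    obtain ⟨g1, g2, g3⟩ := hloc (i, a)
    refine g3 ?_
    have g4 := hcon a
    obtain ⟨r, hr⟩ := g2
    omega
  have hsum : ∀ i : Fin (m + 3), 298 ≤ ∑ a : Fin 74,
      ∑ c, ((C c).filter (fun e => ((i, a) : V m) ∈ e)).card := by
    intro i
    obtain ⟨a, ha⟩ := hcopy i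
    rw [← Finset.add_sum_erase Finset.univ _ (Finset.mem_univ a)]
    have e1 : (Finset.univ.erase a).card • 4 ≤ ∑ a' ∈ Finset.univ.erase a,
        ∑ c, ((C c).filter (fun e => ((i, a') : V m) ∈ e)).card := by
      refine Finset.card_nsmul_le_sum _ _ _ fun a' _ => ?_
      rw [cov_eq C h1]
      exact (hloc (i, a')).1
    rw [Finset.card_erase_of_mem (Finset.mem_univ a), Finset.card_univ, Fintype.card_fin,
      smul_eq_mul] at e1
    have e2 := cov_eq C h1 (i, a)
    omega
  have hall : 298 * (m + 3) ≤ ∑ v : V m, ∑ c, ((C c).filter (fun e => v ∈ e)).card := by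
    rw [Fintype.sum_prod_type]
    have e1 : (Finset.univ : Finset (Fin (m + 3))).card • 298 ≤ ∑ i : Fin (m + 3), ∑ a : Fin 74,
        ∑ c, ((C c).filter (fun e => ((i, a) : V m) ∈ e)).card :=
      Finset.card_nsmul_le_sum _ _ _ fun i _ => hsum i
    rw [Finset.card_univ, Fintype.card_fin, smul_eq_mul] at e1
    omega
  have hh := hH (V m) (G m) k C h1
  omega

end Pool.Agent.W350.SC
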