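import Pool.Agent.W350.SC.Stm

set_option autoImplicit false
set_option maxRecDepth 20000

namespace Pool.Agent.W350.SC.PCUT

open Pool.Agent.W350.SC Finset

/-- the ends of the edges, as pairs (vertex, position) -/
def fibL : List (List (ℕ × ℕ)) :=
  [[(0, 0), (1, 0)], [(1, 1), (2, 0)], [(6, 0), (8, 0)], [(3, 0), (7, 0)], [(7, 1), (9, 0)], [(8, 1), (10,
  0)], [(4, 0), (5, 0)], [(4, 1), (9, 1)], [(6, 1), (9, 2)], [(5, 1), (10, 1)], [(7, 2), (10, 2)], [(0, 1),
  (5, 2)], [(2, 1), (6, 2)], [(1, 2), (3, 1)], [(11, 0), (12, 0)], [(8, 2), (11, 1)], [(4, 2), (11, 2)], [(16,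
  0), (18, 0)], [(17, 0), (19, 0)], [(13, 0), (14, 0)], [(13, 1), (18, 1)], [(18, 2), (20, 0)], [(14, 1), (15,
  0)], [(14, 2), (19, 1)], [(16, 1), (19, 2)], [(15, 1), (20, 1)], [(17, 1), (20, 2)], [(2, 2), (16, 2)], [(0,
  2), (15, 2)], [(21, 0), (22, 0)], [(21, 1), (26, 0)], [(26, 1), (28, 0)], [(22, 1), (23, 0)], [(22, 2), (27,
  0)], [(27, 1), (29, 0)], [(23, 1), (24, 0)], [(23, 2), (28, 1)], [(25, 0), (28, 2)], [(24, 1), (29, 1)],
  [(26, 2), (29, 2)], [(13, 2), (27, 2)], [(17, 2), (25, 1)], [(30, 0), (31, 0)], [(21, 2), (31, 1)], [(25,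
  2), (30, 1)], [(12, 1), (30, 2)], [(32, 0), (33, 0)], [(31, 2), (32, 1)], [(24, 2), (33, 1)], [(37, 0), (39,
  0)], [(38, 0), (40, 0)], [(34, 0), (35, 0)], [(34, 1), (39, 1)], [(39, 2), (41, 0)], [(35, 1), (36, 0)],
  [(35, 2), (40, 1)], [(37, 1), (40, 2)], [(36, 1), (41, 1)], [(38, 1), (41, 2)], [(12, 2), (37, 2)], [(3, 2),
  (36, 2)], [(38, 2), (42, 0)], [(43, 0), (44, 0)], [(34, 2), (43, 1)], [(42, 1), (44, 1)], [(32, 2), (45,
  0)], [(49, 0), (51, 0)], [(50, 0), (52, 0)], [(46, 0), (47, 0)], [(46, 1), (51, 1)], [(51, 2), (53, 0)],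
  [(47, 1), (48, 0)], [(47, 2), (52, 1)], [(49, 1), (52, 2)], [(48, 1), (53, 1)], [(50, 1), (53, 2)], [(33,
  2), (50, 2)], [(42, 2), (49, 2)], [(45, 1), (46, 2)], [(57, 0), (59, 0)], [(58, 0), (60, 0)], [(54, 0), (55,
  0)], [(54, 1), (59, 1)], [(59, 2), (61, 0)], [(55, 1), (56, 0)], [(55, 2), (60, 1)], [(57, 1), (60, 2)],
  [(56, 1), (61, 1)], [(58, 1), (61, 2)], [(45, 2), (58, 2)], [(48, 2), (54, 2)], [(62, 0), (63, 0)], [(62,
  1), (67, 0)], [(67, 1), (69, 0)], [(63, 1), (64, 0)], [(63, 2), (68, 0)], [(68, 1), (70, 0)], [(64, 1), (65,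
  0)], [(64, 2), (69, 1)], [(66, 0), (69, 2)], [(65, 1), (70, 1)], [(67, 2), (70, 2)], [(43, 2), (68, 2)],
  [(44, 2), (66, 1)], [(62, 2), (71, 0)], [(72, 0), (73, 0)], [(71, 1), (73, 1)], [(65, 2), (72, 1)], [(66,
  2), (73, 2)], [(57, 2)], [(71, 2)], [(56, 2)], [(72, 2)]]

def dlN (x : ℕ × ℕ) : ℕ := ((nbL.getD x.1 []).getD x.2 (0, 0)).1
def nvN (x : ℕ × ℕ) : ℕ := ((nbL.getD x.1 []).getD x.2 (0, 0)).2 % 74

theorem mem_fib : ∀ (a : Fin 74) (p : Fin 3), (a.val, p.val) ∈ fibL.getD (ed a p) [] := by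
  decide +kernel

theorem fib_two : ∀ e : Fin 113, ∀ x ∈ fibL.getD e.val [], ∀ y ∈ fibL.getD e.val [],
    x = y ∨ (dlN x = 0 ∧ y.1 = nvN x ∧ x.1 = nvN y) := by decide +kernel

theorem ed_lt : ∀ (a : Fin 74) (p : Fin 3), ed a p < 113 := by decide +kernel

theorem same_ed (a : Fin 74) (p : Fin 3) (b : Fin 74) (q : Fin 3) (h : ed a p = ed b q) :
    (a = b ∧ p = q) ∨ (dl a p = 0 ∧ b = nv a p ∧ a = nv b q) := by
  have h1 := mem_fib a p
  have h2 := mem_fib b q
  rw [← h] at h2
  have h3 := fib_two ⟨ed a p, ed_lt a p⟩ _ h1 _ h2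
  rcases h3 with h3 | ⟨h4, h5, h6⟩
  · left
    rw [Prod.mk.injEq] at h3
    exact ⟨Fin.ext h3.1, Fin.ext h3.2⟩
  · right
    exact ⟨h4, Fin.ext h5, Fin.ext h6⟩

/-- bits of the flow -/
def lamk (k : ℕ) (e : ℕ) : ZMod 2 := if (flL.getD e 0).testBit k then 1 else 0

theorem flow : ∀ (a : Fin 74) (k : Fin 15),
    lamk k (ed a 0) + lamk k (ed a 1) + lamk k (ed a 2) = 0 := by decide +kernel

theorem flow_ne : ∀ e : Fin 113, ∃ k : Fin 15, lamk k e.val ≠ 0 := by decide +kernel

theorem fl_inj : ∀ e f : Fin 113, flL.getD e.val 0 = flL.getD f.val 0 → e = f := by decide +kernel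

theorem fl_lt : ∀ e : Fin 113, flL.getD e.val 0 < 2 ^ 15 := by decide +kernel

/-- sum of the values at the ends of an edge -/
def bd (t : Fin 74 → ZMod 2) (e : ℕ) : ZMod 2 :=
  ∑ x ∈ (univ : Finset (Fin 74 × Fin 3)).filter (fun x => ed x.1 x.2 = e), t x.1

theorem bd_dang (t : Fin 74 → ZMod 2) (a : Fin 74) (p : Fin 3) (h : dl a p ≠ 0) :
    bd t (ed a p) = t a := by
  have h1 : (univ : Finset (Fin 74 × Fin 3)).filter (fun x => ed x.1 x.2 = ed a p)
      = {(a, p)} := by
    ext ⟨b, q⟩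
    simp only [mem_filter, mem_univ, true_and, mem_singleton, Prod.mk.injEq]
    constructor
    · intro h2
      rcases same_ed a p b q h2.symm with h3 | h3
      · exact ⟨h3.1.symm, h3.2.symm⟩
      · exact absurd h3.1 h
    · rintro ⟨rfl, rfl⟩; rfl
  unfold bd
  rw [h1, sum_singleton]

theorem bd_in (t : Fin 74 → ZMod 2) (a : Fin 74) (p : Fin 3) (h : dl a p = 0) :
    bd t (ed a p) = t a + t (nv a p) := by
  obtain ⟨q, hq1, hq2, hq3⟩ := back a p
  have h1 : (univ : Finset (Fin 74 × Fin 3)).filter (fun x => ed x.1 x.2 = ed a p)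
      = {(a, p), (nv a p, q)} := by
    ext ⟨b, r⟩
    simp only [mem_filter, mem_univ, true_and, mem_insert, mem_singleton, Prod.mk.injEq]
    constructor
    · intro h2
      rcases same_ed a p b r h2.symm with h3 | ⟨-, h4, h5⟩
      · exact Or.inl ⟨h3.1.symm, h3.2.symm⟩
      · right
        refine ⟨h4, ?_⟩
        subst h4
        exact nv_inj (nv a p) r q (by rw [← h5, hq1])
    · rintro (⟨rfl, rfl⟩ | ⟨rfl, rfl⟩)
      · rfl
      · exact hq3 h
  unfold bd
  rw [h1, sum_pair]
  intro h2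
  exact nv_ne a p (congrArg Prod.fst h2).symm

theorem bd_add (t s : Fin 74 → ZMod 2) (e : ℕ) : bd (fun a => t a + s a) e = bd t e + bd s e := by
  unfold bd
  rw [← sum_add_distrib]

theorem par_step : ∀ a : Fin 74, (paL.getD a.val 74 = 74 ∧ ∃ p : Fin 3, dl a p ≠ 0) ∨
    (∃ p : Fin 3, dl a p = 0 ∧ (nv a p).val = paL.getD a.val 74) := by decide +kernel

theorem par_iter : ∀ a : Fin 74, (fun x => paL.getD x 74)^[11] a.val = 74 := by decide +kernel

theorem conn (t : Fin 74 → ZMod 2) (h : ∀ e < 113, bd t e = 0) (a : Fin 74) : t a = 0 := by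
  let u : ℕ → ZMod 2 := fun x => if hx : x < 74 then t ⟨x, hx⟩ else 0
  have h1 : ∀ x, u x = u (paL.getD x 74) := by
    intro x
    by_cases hx : x < 74
    · have hu : u x = t ⟨x, hx⟩ := by simp only [u, hx, dif_pos]
      rcases par_step ⟨x, hx⟩ with ⟨h2, p, hp⟩ | ⟨p, hp, hq⟩
      · have h3 := h _ (ed_lt ⟨x, hx⟩ p)
        rw [bd_dang t _ p hp] at h3
        rw [hu, h3]
        have h4 : paL.getD x 74 = 74 := h2
        rw [h4]
        simp [u]
      · have h3 := h _ (ed_lt ⟨x, hx⟩ p)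
        rw [bd_in t _ p hp] at h3
        have h4 : t ⟨x, hx⟩ = t (nv ⟨x, hx⟩ p) := by
          have := eq_neg_of_add_eq_zero_left h3
          rw [this, ZMod.neg_eq_self_mod_two]
        rw [hu, h4]
        have h5 : paL.getD x 74 = (nv ⟨x, hx⟩ p).val := hq.symm
        rw [h5]
        have h6 : (nv ⟨x, hx⟩ p).val < 74 := (nv ⟨x, hx⟩ p).2
        simp only [u, h6, dif_pos]
    · have hl : paL.getD x 74 = 74 := by
        rw [List.getD_eq_default]
        have : paL.length = 74 := by decide +kernel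
        omega
      rw [hl]
      simp [u, hx]
  have h2 : ∀ n x, u x = u ((fun x => paL.getD x 74)^[n] x) := by
    intro n
    induction n with
    | zero => intro x; rfl
    | succ n ih => intro x; rw [Function.iterate_succ_apply, h1 x]; exact ih _
  have h3 := h2 11 a.val
  rw [par_iter a] at h3
  simpa [u] using h3

theorem flow_sum (t : Fin 74 → ZMod 2) (k : Fin 15) :
    ∑ e ∈ range 113, lamk k e * bd t e = 0 := by
  have h1 : ∑ e ∈ range 113, lamk k e * bd t e
      = ∑ x : Fin 74 × Fin 3, lamk k (ed x.1 x.2) * t x.1 := by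
    rw [← sum_fiberwise_of_maps_to (s := univ) (t := range 113)
      (g := fun x : Fin 74 × Fin 3 => ed x.1 x.2)
      (fun x _ => Finset.mem_range.2 (ed_lt x.1 x.2))]
    refine sum_congr rfl (fun e _ => ?_)
    unfold bd
    rw [mul_sum]
    refine sum_congr rfl (fun x hx => ?_)
    rw [(mem_filter.1 hx).2]
  rw [h1, Fintype.sum_prod_type]
  refine sum_eq_zero (fun a _ => ?_)
  rw [Fin.sum_univ_three]
  have := flow a k
  dsimp only
  rw [← add_mul, ← add_mul, this, zero_mul]

/-- search for zero-sum triples that are not stars -/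
def star (e f g : ℕ) : Bool := eL.contains [e, f, g]

def chk2 (x e f : ℕ) : List (ℕ × ℕ) → Bool
  | [] => true
  | (g, y) :: l => (bif Nat.beq y x then star e f g else true) && chk2 x e f l

def chk1 (e x : ℕ) : List (ℕ × ℕ) → Bool
  | [] => true
  | (f, y) :: l => chk2 (x ^^^ y) e f l && chk1 e x l

def chk0 : List (ℕ × ℕ) → Bool
  | [] => true
  | (e, x) :: l => chk1 e x l && chk0 l

def idL : List (ℕ × ℕ) := (List.range 113).map (fun e => (e, flL.getD e 0))

theorem chk_ok : chk0 idL = true := by decide +kernel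

theorem chk2_sound (x e f : ℕ) (l : List (ℕ × ℕ)) (h : chk2 x e f l = true) (g : ℕ)
    (hg : (g, x) ∈ l) : star e f g = true := by
  induction l with
  | nil => simp at hg
  | cons a l ih =>
    obtain ⟨g', y⟩ := a
    simp only [chk2, Bool.and_eq_true] at h
    rcases List.mem_cons.1 hg with h1 | h1
    · rw [Prod.mk.injEq] at h1
      obtain ⟨rfl, rfl⟩ := h1
      simpa using h.1
    · exact ih h.2 h1

theorem chk1_sound (e x : ℕ) (l : List (ℕ × ℕ)) (h : chk1 e x l = true) (f y g : ℕ)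
    (hs : [(f, y), (g, x ^^^ y)].Sublist l) : star e f g = true := by
  induction l with
  | nil => simp at hs
  | cons a l ih =>
    obtain ⟨f', y'⟩ := a
    simp only [chk1, Bool.and_eq_true] at h
    rcases List.sublist_cons_iff.1 hs with h1 | ⟨r, h1, h2⟩
    · exact ih h.2 h1
    · rw [List.cons.injEq, Prod.mk.injEq] at h1
      obtain ⟨⟨rfl, rfl⟩, rfl⟩ := h1
      exact chk2_sound _ _ _ _ h.1 g (h2.subset (by simp))

theorem chk0_sound (l : List (ℕ × ℕ)) (h : chk0 l = true) (e x f y g : ℕ)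
    (hs : [(e, x), (f, y), (g, x ^^^ y)].Sublist l) : star e f g = true := by
  induction l with
  | nil => simp at hs
  | cons a l ih =>
    obtain ⟨f', y'⟩ := a
    simp only [chk0, Bool.and_eq_true] at h
    rcases List.sublist_cons_iff.1 hs with h1 | ⟨r, h1, h2⟩
    · exact ih h.2 h1
    · rw [List.cons.injEq, Prod.mk.injEq] at h1
      obtain ⟨⟨rfl, rfl⟩, rfl⟩ := h1
      exact chk1_sound _ _ _ h.1 f y g h2

theorem eL_star : ∀ (l : List ℕ), l ∈ eL → ∃ v : Fin 74, l = [ed v 0, ed v 1, ed v 2] := by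
  decide +kernel

theorem triple (e f g : ℕ) (h1 : e < f) (h2 : f < g) (h3 : g < 113)
    (hx : flL.getD g 0 = flL.getD e 0 ^^^ flL.getD f 0) :
    ∃ v : Fin 74, ({e, f, g} : Finset ℕ) = {ed v 0, ed v 1, ed v 2} := by
  have hs : [e, f, g].Sublist (List.range 113) := by
    apply List.sublist_of_subperm_of_pairwise (r := (· < ·))
    · apply List.subperm_of_subset
      · simp only [List.nodup_cons, List.mem_cons, List.not_mem_nil, or_false, not_or,
          List.nodup_nil, and_true, not_false_eq_true]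
        omega
      · intro a ha
        simp only [List.mem_cons, List.not_mem_nil, or_false] at ha
        rw [List.mem_range]
        omega
    · simp only [List.pairwise_cons, List.mem_cons, List.not_mem_nil, or_false, List.Pairwise.nil,
        and_true]
      refine ⟨?_, ?_, ?_⟩
      · rintro a (rfl | rfl) <;> omega
      · rintro a rfl; exact h2
      · intro a ha; exact absurd ha (by simp)
    · exact List.pairwise_lt_range
  have hs2 := hs.map (fun e => (e, flL.getD e 0))
  simp only [List.map_cons, List.map_nil] at hs2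
  rw [hx] at hs2
  have h4 := chk0_sound idL chk_ok e _ f _ g hs2
  have h5 : [e, f, g] ∈ eL := by
    unfold star at h4
    exact List.contains_iff_mem.1 h4
  obtain ⟨v, hv⟩ := eL_star _ h5
  simp only [List.cons.injEq, and_true] at hv
  exact ⟨v, by rw [hv.1, hv.2.1, hv.2.2]⟩

theorem z2 (x : ZMod 2) (h : x ≠ 0) : x = 1 := by
  revert x; decide

/-- the set of cut edges -/
noncomputable def DD (t : Fin 74 → ZMod 2) : Finset ℕ := (range 113).filter (fun e => bd t e ≠ 0)

theorem DD_sum (t : Fin 74 → ZMod 2) (k : Fin 15) : ∑ e ∈ DD t, lamk k e = 0 := by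
  rw [← flow_sum t k]
  unfold DD
  rw [sum_filter]
  refine sum_congr rfl (fun e _ => ?_)
  by_cases h : bd t e = 0
  · simp [h]
  · rw [if_pos h, z2 _ h, mul_one]

/-- indicator of a set -/
noncomputable def ind (T : Finset (Fin 74)) (a : Fin 74) : ZMod 2 := if a ∈ T then 1 else 0

theorem card_DD (T : Finset (Fin 74)) : (DD (ind T)).card = cutN T := by
  unfold cutN
  symm
  refine card_bij (fun x _ => ed x.1 x.2) ?_ ?_ ?_
  · rintro ⟨a, p⟩ hx
    simp only [mem_filter, mem_univ, true_and] at hx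
    obtain ⟨ha, hx⟩ := hx
    unfold DD
    rw [mem_filter]
    refine ⟨Finset.mem_range.2 (ed_lt a p), ?_⟩
    show bd (ind T) (ed a p) ≠ 0
    by_cases hd : dl a p = 0
    · rw [bd_in _ a p hd]
      rcases hx with hx | hx
      · exact absurd hd hx
      · simp [ind, ha, hx]
    · rw [bd_dang _ a p hd]
      simp [ind, ha]
  · rintro ⟨a, p⟩ hx ⟨b, q⟩ hy h
    simp only [mem_filter, mem_univ, true_and] at hx hy
    rcases same_ed a p b q h with h1 | ⟨h1, h2, -⟩
    · exact Prod.ext h1.1 h1.2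
    · exfalso
      rcases hx.2 with h3 | h3
      · exact h3 h1
      · exact h3 (h2 ▸ hy.1)
  · intro e he
    unfold DD at he
    rw [mem_filter] at he
    obtain ⟨-, he⟩ := he
    have h1 : ∃ x ∈ (univ : Finset (Fin 74 × Fin 3)).filter (fun x => ed x.1 x.2 = e),
        ind T x.1 ≠ 0 := by
      by_contra hcon
      push Not at hcon
      exact he (sum_eq_zero hcon)
    obtain ⟨⟨a, p⟩, hx1, hx2⟩ := h1
    simp only [mem_filter, mem_univ, true_and] at hx1
    have ha : a ∈ T := by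
      by_contra hc
      exact hx2 (by simp [ind, hc])
    refine ⟨(a, p), ?_, hx1⟩
    simp only [mem_filter, mem_univ, true_and]
    refine ⟨ha, ?_⟩
    by_cases hd : dl a p = 0
    · right
      intro hn
      apply he
      rw [← hx1, bd_in _ a p hd]
      simp only [ind, ha, hn, if_true]
      decide
    · exact Or.inl hd

theorem lam_zero_inj (e f : ℕ) (he : e < 113) (hf : f < 113)
    (h : ∀ k : Fin 15, lamk k e + lamk k f = 0) : e = f := by
  have h1 : flL.getD e 0 = flL.getD f 0 := by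
    apply Nat.eq_of_testBit_eq
    intro i
    by_cases hi : i < 15
    · have h2 := h ⟨i, hi⟩
      unfold lamk at h2
      cases h3 : (flL.getD e 0).testBit i <;> cases h4 : (flL.getD f 0).testBit i <;>
        simp only [h3, h4] at h2 ⊢ <;> revert h2 <;> decide
    · have h5 : (flL.getD e 0).testBit i = false :=
        Nat.testBit_lt_two_pow (lt_of_lt_of_le (fl_lt ⟨e, he⟩) (Nat.pow_le_pow_right (by norm_num) (by omega)))
      have h6 : (flL.getD f 0).testBit i = false :=
        Nat.testBit_lt_two_pow (lt_of_lt_of_le (fl_lt ⟨f, hf⟩) (Nat.pow_le_pow_right (by norm_num) (by omega)))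
      rw [h5, h6]
  have h2 := fl_inj ⟨e, he⟩ ⟨f, hf⟩ h1
  exact congrArg Fin.val h2

theorem lam_three (e f g : ℕ) (he : e < 113) (hf : f < 113) (hg : g < 113)
    (h : ∀ k : Fin 15, lamk k e + lamk k f + lamk k g = 0) :
    flL.getD g 0 = flL.getD e 0 ^^^ flL.getD f 0 := by
  apply Nat.eq_of_testBit_eq
  intro i
  rw [Nat.testBit_xor]
  by_cases hi : i < 15
  · have h2 := h ⟨i, hi⟩
    unfold lamk at h2
    cases h3 : (flL.getD e 0).testBit i <;> cases h4 : (flL.getD f 0).testBit i <;>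
      cases h5 : (flL.getD g 0).testBit i <;>
      simp only [h3, h4, h5] at h2 ⊢ <;> revert h2 <;> decide
  · have key : ∀ x : ℕ, x < 113 → (flL.getD x 0).testBit i = false := fun x hx =>
      Nat.testBit_lt_two_pow (lt_of_lt_of_le (fl_lt ⟨x, hx⟩) (Nat.pow_le_pow_right (by norm_num) (by omega)))
    rw [key e he, key f hf, key g hg]
    rfl

theorem ed_ne : ∀ v : Fin 74, ed v 0 ≠ ed v 1 ∧ ed v 0 ≠ ed v 2 ∧ ed v 1 ≠ ed v 2 := by
  decide +kernel

theorem bd_ind_single (v : Fin 74) (e : ℕ) :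
    bd (ind {v}) e = if e ∈ ({ed v 0, ed v 1, ed v 2} : Finset ℕ) then 1 else 0 := by
  unfold bd
  have h1 : ∑ x ∈ (univ : Finset (Fin 74 × Fin 3)).filter (fun x => ed x.1 x.2 = e),
      ind {v} x.1 = ∑ p : Fin 3, if ed v p = e then (1 : ZMod 2) else 0 := by
    rw [sum_filter, Fintype.sum_prod_type]
    rw [Fintype.sum_eq_single v]
    · refine sum_congr rfl (fun p _ => ?_)
      simp [ind]
    · intro a ha
      refine sum_eq_zero (fun p _ => ?_)
      simp [ind, ha]
  rw [h1, Fin.sum_univ_three]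
  obtain ⟨n1, n2, n3⟩ := ed_ne v
  simp only [mem_insert, mem_singleton]
  by_cases a1 : ed v 0 = e
  · subst a1
    simp [n1.symm, n2.symm]
  · by_cases a2 : ed v 1 = e
    · subst a2
      simp [n1, n3.symm]
    · by_cases a3 : ed v 2 = e
      · subst a3
        simp [n2, n3]
      · simp [a1, a2, a3, Ne.symm a1, Ne.symm a2, Ne.symm a3]

theorem pm1 (x y z : ℕ) : ({x, y, z} : Finset ℕ) = {x, z, y} := by
  ext a; simp only [mem_insert, mem_singleton]; tauto

theorem pm2 (x y z : ℕ) : ({x, y, z} : Finset ℕ) = {z, x, y} := by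
  ext a; simp only [mem_insert, mem_singleton]; tauto

theorem pm3 (x y z : ℕ) : ({x, y, z} : Finset ℕ) = {y, x, z} := by
  ext a; simp only [mem_insert, mem_singleton]; tauto

theorem pm4 (x y z : ℕ) : ({x, y, z} : Finset ℕ) = {y, z, x} := by
  ext a; simp only [mem_insert, mem_singleton]; tauto

theorem pm5 (x y z : ℕ) : ({x, y, z} : Finset ℕ) = {z, y, x} := by
  ext a; simp only [mem_insert, mem_singleton]; tauto

theorem three_card (T : Finset (Fin 74)) (h : (DD (ind T)).card = 3) : T.card = 1 := by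
  classical
  have hlt : ∀ e ∈ DD (ind T), e < 113 := fun e he => Finset.mem_range.1 (mem_filter.1 he).1
  -- sorted triple
  obtain ⟨e, f, g, hef, hfg, hD⟩ : ∃ e f g : ℕ, e < f ∧ f < g ∧ DD (ind T) = {e, f, g} := by
    obtain ⟨x, y, z, hxy, hxz, hyz, hE⟩ := card_eq_three.1 h
    rcases lt_or_gt_of_ne hxy with h1 | h1 <;> rcases lt_or_gt_of_ne hxz with h2 | h2 <;>
      rcases lt_or_gt_of_ne hyz with h3 | h3
    · exact ⟨x, y, z, h1, h3, hE⟩
    · exact ⟨x, z, y, h2, h3, hE.trans (pm1 x y z)⟩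
    · omega
    · exact ⟨z, x, y, h2, h1, hE.trans (pm2 x y z)⟩
    · exact ⟨y, x, z, h1, h2, hE.trans (pm3 x y z)⟩
    · omega
    · exact ⟨y, z, x, h3, h2, hE.trans (pm4 x y z)⟩
    · exact ⟨z, y, x, h3, h1, hE.trans (pm5 x y z)⟩
  have he : e < 113 := hlt e (by rw [hD]; simp)
  have hf : f < 113 := hlt f (by rw [hD]; simp)
  have hg : g < 113 := hlt g (by rw [hD]; simp)
  have hs : ∀ k : Fin 15, lamk k e + lamk k f + lamk k g = 0 := by
    intro k
    have := DD_sum (ind T) k
    rw [hD, sum_insert, sum_pair (by omega)] at this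
    · rw [← this]; ring
    · simp only [mem_insert, mem_singleton, not_or]
      omega
  obtain ⟨v, hv⟩ := triple e f g hef hfg hg (lam_three e f g he hf hg hs)
  have h0 : ∀ e < 113, bd (fun a => ind T a + ind {v} a) e = 0 := by
    intro x hx
    rw [bd_add, bd_ind_single, ← hv, ← hD]
    by_cases hb : bd (ind T) x = 0
    · have : x ∉ DD (ind T) := fun hm => (mem_filter.1 hm).2 hb
      rw [if_neg this, hb, add_zero]
    · have : x ∈ DD (ind T) := by
        unfold DD
        rw [mem_filter]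
        exact ⟨Finset.mem_range.2 hx, hb⟩
      rw [if_pos this, z2 _ hb]
      decide
  have h1 := conn _ h0
  rw [card_eq_one]
  refine ⟨v, ?_⟩
  ext a
  have h2 := h1 a
  simp only [mem_singleton]
  by_cases ha : a ∈ T <;> by_cases hav : a = v
  · exact ⟨fun _ => hav, fun _ => ha⟩
  · exfalso
    simp [ind, ha, hav] at h2
  · exfalso
    subst hav
    simp [ind, ha] at h2
  · exact ⟨fun h => absurd h ha, fun h => absurd h hav⟩

end Pool.Agent.W350.SC.PCUT

namespace Pool.Agent.W350.SC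

open PCUT Finset

theorem pCUT : S_Cut := by
  intro T hT
  rw [← card_DD T]
  have h0 : (DD (ind T)).card ≠ 0 := by
    intro h
    rw [card_eq_zero] at h
    have h1 : ∀ e < 113, bd (ind T) e = 0 := by
      intro e he
      by_contra hc
      have : e ∈ DD (ind T) := by
        unfold DD
        rw [mem_filter]
        exact ⟨Finset.mem_range.2 he, hc⟩
      rw [h] at this
      simp at this
    obtain ⟨a, ha⟩ := hT
    have := conn _ h1 a
    simp [ind, ha] at this
  have hlt : ∀ e ∈ DD (ind T), e < 113 := fun e he => Finset.mem_range.1 (mem_filter.1 he).1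
  have h1 : (DD (ind T)).card ≠ 1 := by
    intro h
    obtain ⟨e, he⟩ := card_eq_one.1 h
    have hel : e < 113 := hlt e (by rw [he]; simp)
    obtain ⟨k, hk⟩ := flow_ne ⟨e, hel⟩
    have := DD_sum (ind T) k
    rw [he, sum_singleton] at this
    exact hk this
  have h2 : (DD (ind T)).card ≠ 2 := by
    intro h
    obtain ⟨e, f, hef, he⟩ := card_eq_two.1 h
    have hel : e < 113 := hlt e (by rw [he]; simp)
    have hfl : f < 113 := hlt f (by rw [he]; simp)
    refine hef (lam_zero_inj e f hel hfl (fun k => ?_))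
    have := DD_sum (ind T) k
    rw [he, sum_pair hef] at this
    exact this
  exact ⟨by omega, three_card T⟩

end Pool.Agent.W350.SC
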