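import Pool.Agent.W350.SC.Stm

set_option autoImplicit false

namespace Pool.Agent.W350.SC

namespace PCYC

theorem acyc_of_card {m : ℕ} (T : Set (V m)) (hT : T.Subsingleton) :
    ((G m).induce T).IsAcyclic := by
  intro v c hc
  have h3 := hc.three_le_length
  cases c with
  | nil => simp at h3
  | cons h p =>
    rename_i w
    have hvw : v = w := Subtype.ext (hT v.2 w.2)
    exact h.ne hvw

end PCYC

theorem pCYC : S_Cyc := by
  intro hcut hring m S h1 h2
  have hne : S.Nonempty := by
    rw [Finset.nonempty_iff_ne_empty]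
    rintro rfl
    exact h1 (PCYC.acyc_of_card _ (by simp))
  have hnec : Sᶜ.Nonempty := by
    rw [Finset.nonempty_iff_ne_empty]
    intro h
    refine h2 (PCYC.acyc_of_card _ ?_)
    have h3 : ((S : Set (V m))ᶜ) = ∅ := by
      rw [← Finset.coe_compl, h, Finset.coe_empty]
    rw [h3]
    exact Set.subsingleton_empty
  obtain ⟨h3, h4⟩ := hring hcut m S hne hnec
  change 4 ≤ cutG S
  by_contra hlt
  have h5 : cutG S = 3 := by omega
  rcases h4 h5 with h6 | h6
  · refine h1 (PCYC.acyc_of_card _ ?_)
    obtain ⟨a, ha⟩ := Finset.card_eq_one.1 h6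
    rw [ha]
    simp
  · refine h2 (PCYC.acyc_of_card _ ?_)
    obtain ⟨a, ha⟩ := Finset.card_eq_one.1 h6
    rw [← Finset.coe_compl, ha]
    simp

end Pool.Agent.W350.SC
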