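import Pool.Agent.W350.SC.Stm

set_option autoImplicit false

namespace Pool.Agent.W350.SC

namespace PDD

theorem eqL_eq : ∀ l m : List ℕ, eqL l m = true → l = m
  | [], [], _ => rfl
  | [], b :: m, h => by simp [eqL] at h
  | a :: l, [], h => by simp [eqL] at h
  | a :: l, b :: m, h => by
    unfold eqL at h
    cases hb : Nat.beq a b with
    | false => rw [hb] at h; simp at h
    | true =>
      rw [hb] at h
      have h1 : a = b := Nat.eq_of_beq_eq_true hb
      have h2 : eqL l m = true := by simpa using h
      rw [h1, eqL_eq l m h2]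

theorem mem_list : ∀ (t : Tr) (acc : List (List ℕ)) (s : List ℕ),
    s ∈ t.list acc ↔ s ∈ t.list [] ∨ s ∈ acc
  | .lf, acc, s => by simp [Tr.list]
  | .nd l k s' r, acc, s => by
    unfold Tr.list
    rw [mem_list l (s' :: r.list acc) s, mem_list l (s' :: r.list []) s, List.mem_cons,
      List.mem_cons, mem_list r acc s]
    tauto

theorem mem_node (l r : Tr) (k : ℕ) (s' s : List ℕ) :
    s ∈ (Tr.nd l k s' r).list [] ↔ s ∈ l.list [] ∨ s = s' ∨ s ∈ r.list [] := by
  rw [show (Tr.nd l k s' r).list [] = l.list (s' :: r.list []) from rfl, mem_list, List.mem_cons]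

theorem mem_put (k : ℕ) (s : List ℕ) : ∀ t : Tr,
    s ∈ (t.put k s).list [] ∧ ∀ x ∈ t.list [], x ∈ (t.put k s).list []
  | .lf => by
    unfold Tr.put
    constructor
    · rw [mem_node]; exact Or.inr (Or.inl rfl)
    · intro x hx
      simp [Tr.list] at hx
  | .nd l k' s' r => by
    obtain ⟨h1, h2⟩ := mem_put k s l
    obtain ⟨h3, h4⟩ := mem_put k s r
    unfold Tr.put
    cases hc : Nat.blt k k' with
    | true =>
      simp only [cond_true]
      refine ⟨(mem_node _ _ _ _ _).2 (Or.inl h1), fun x hx => ?_⟩
      rw [mem_node] at hx ⊢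
      rcases hx with hx | hx | hx
      · exact Or.inl (h2 x hx)
      · exact Or.inr (Or.inl hx)
      · exact Or.inr (Or.inr hx)
    | false =>
      simp only [cond_false]
      cases hd : Nat.blt k' k with
      | true =>
        simp only [cond_true]
        refine ⟨(mem_node _ _ _ _ _).2 (Or.inr (Or.inr h3)), fun x hx => ?_⟩
        rw [mem_node] at hx ⊢
        rcases hx with hx | hx | hx
        · exact Or.inl hx
        · exact Or.inr (Or.inl hx)
        · exact Or.inr (Or.inr (h4 x hx))
      | false =>
        simp only [cond_false]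
        cases he : eqL s s' with
        | true =>
          simp only [cond_true]
          refine ⟨(mem_node _ _ _ _ _).2 (Or.inr (Or.inl (eqL_eq s s' he))), fun x hx => hx⟩
        | false =>
          simp only [cond_false]
          refine ⟨(mem_node _ _ _ _ _).2 (Or.inl h1), fun x hx => ?_⟩
          rw [mem_node] at hx ⊢
          rcases hx with hx | hx | hx
          · exact Or.inl (h2 x hx)
          · exact Or.inr (Or.inl hx)
          · exact Or.inr (Or.inr hx)

theorem mem_foldl : ∀ (S : List (List ℕ)) (t : Tr) (s : List ℕ), (s ∈ S ∨ s ∈ t.list []) →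
    s ∈ (S.foldl (fun (t : Tr) s => t.put (code s 0) s) t).list []
  | [], t, s, h => by
    rcases h with h | h
    · simp at h
    · exact h
  | a :: S, t, s, h => by
    rw [List.foldl_cons]
    apply mem_foldl S
    rcases h with h | h
    · rcases List.mem_cons.1 h with rfl | h
      · exact Or.inr (mem_put _ _ t).1
      · exact Or.inl h
    · exact Or.inr ((mem_put _ _ t).2 s h)

end PDD

theorem pDD : S_Dd := fun S s hs => PDD.mem_foldl S Tr.lf s (Or.inl hs)

end Pool.Agent.W350.SC
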