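import Pool.Agent.W350.SC.Stm

set_option autoImplicit false

/-! # SC-GIR: the girth of the ring of fragments is at least 5 -/

namespace Pool.Agent.W350.SC.PGIR

open Pool.Agent.W350.SC SimpleGraph

/-- the shift as an integer -/
def z (d : ℕ) : ℤ := if d = 0 then 0 else if d = 1 then 1 else -1

theorem sh_eq {m : ℕ} (i : Fin (m + 3)) (d : ℕ) : sh i d = i + z d • (1 : Fin (m + 3)) := by
  unfold sh z
  split_ifs
  · rw [zero_zsmul, add_zero]
  · rw [one_zsmul]
  · rw [neg_zsmul, one_zsmul, sub_eq_add_neg]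

theorem one_ne {m : ℕ} : (1 : Fin (m + 3)) ≠ 0 := by
  intro h
  have := congrArg Fin.val h
  simp at this

theorem two_ne {m : ℕ} : (1 : Fin (m + 3)) + 1 ≠ 0 := by
  intro h
  have h1 := congrArg Fin.val h
  rw [Fin.val_add, Fin.val_one, Fin.val_zero] at h1
  rw [Nat.mod_eq_of_lt (by omega)] at h1
  omega

theorem no_shift {m : ℕ} (i : Fin (m + 3)) (k : ℤ) (hk : k = 1 ∨ k = -1 ∨ k = 2 ∨ k = -2)
    (h : i + k • (1 : Fin (m + 3)) = i) : False := by
  have h0 : k • (1 : Fin (m + 3)) = 0 := by simpa using h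
  rcases hk with rfl | rfl | rfl | rfl
  · rw [one_zsmul] at h0
    exact one_ne h0
  · rw [neg_zsmul, one_zsmul, neg_eq_zero] at h0
    exact one_ne h0
  · rw [two_zsmul] at h0
    exact two_ne h0
  · rw [neg_zsmul, two_zsmul, neg_eq_zero] at h0
    exact two_ne h0

theorem chk3 : ∀ a : Fin 74, ∀ p q r : Fin 3, nv (nv (nv a p) q) r = a →
    (z (dl a p) + z (dl (nv a p) q) + z (dl (nv (nv a p) q) r) = 1 ∨
     z (dl a p) + z (dl (nv a p) q) + z (dl (nv (nv a p) q) r) = -1 ∨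
     z (dl a p) + z (dl (nv a p) q) + z (dl (nv (nv a p) q) r) = 2 ∨
     z (dl a p) + z (dl (nv a p) q) + z (dl (nv (nv a p) q) r) = -2) := by decide +kernel

theorem chk4 : ∀ a : Fin 74, ∀ p q : Fin 3, nv (nv a p) q ≠ a → ∀ r : Fin 3,
    nv (nv (nv a p) q) r ≠ nv a p → ∀ t : Fin 3, nv (nv (nv (nv a p) q) r) t = a →
    (z (dl a p) + z (dl (nv a p) q) + z (dl (nv (nv a p) q) r) +
        z (dl (nv (nv (nv a p) q) r) t) = 1 ∨
     z (dl a p) + z (dl (nv a p) q) + z (dl (nv (nv a p) q) r) +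
        z (dl (nv (nv (nv a p) q) r) t) = -1 ∨
     z (dl a p) + z (dl (nv a p) q) + z (dl (nv (nv a p) q) r) +
        z (dl (nv (nv (nv a p) q) r) t) = 2 ∨
     z (dl a p) + z (dl (nv a p) q) + z (dl (nv (nv a p) q) r) +
        z (dl (nv (nv (nv a p) q) r) t) = -2) := by decide +kernel

/-- walking back -/
theorem nbr_back {m : ℕ} (u : V m) (p q : Fin 3) (h : nv (nv u.2 p) q = u.2) :
    nbr (nbr u p) q = u := by
  obtain ⟨q', h1, h2, -⟩ := back u.2 p
  have hq : q' = q := nv_inj (nv u.2 p) q' q (h1.trans h.symm)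
  subst hq
  unfold nbr
  refine Prod.ext ?_ h1
  show sh (sh u.1 (dl u.2 p)) (dl (nv u.2 p) q') = u.1
  rw [h2]
  exact sh_inv _ _ (dl_lt _ _)

theorem no_tri {m : ℕ} (a b c : V m) (h1 : (G m).Adj a b) (h2 : (G m).Adj b c)
    (h3 : (G m).Adj c a) : False := by
  obtain ⟨p, rfl⟩ := h1
  obtain ⟨q, rfl⟩ := h2
  obtain ⟨r, h3⟩ := h3
  have e1 := congrArg Prod.fst h3
  have e2 := congrArg Prod.snd h3
  change sh (sh (sh a.1 (dl a.2 p)) (dl (nv a.2 p) q)) (dl (nv (nv a.2 p) q) r) = a.1 at e1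
  change nv (nv (nv a.2 p) q) r = a.2 at e2
  rw [sh_eq, sh_eq, sh_eq, add_assoc, add_assoc, ← add_zsmul, ← add_zsmul, ← add_assoc] at e1
  exact no_shift _ _ (chk3 a.2 p q r e2) e1

theorem no_sq {m : ℕ} (a b c d : V m) (h1 : (G m).Adj a b) (h2 : (G m).Adj b c)
    (h3 : (G m).Adj c d) (h4 : (G m).Adj d a) (hac : a ≠ c) (hbd : b ≠ d) : False := by
  obtain ⟨p, rfl⟩ := h1
  obtain ⟨q, rfl⟩ := h2
  obtain ⟨r, rfl⟩ := h3
  obtain ⟨t, h4⟩ := h4
  have e1 := congrArg Prod.fst h4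
  have e2 := congrArg Prod.snd h4
  change sh (sh (sh (sh a.1 (dl a.2 p)) (dl (nv a.2 p) q)) (dl (nv (nv a.2 p) q) r))
    (dl (nv (nv (nv a.2 p) q) r) t) = a.1 at e1
  change nv (nv (nv (nv a.2 p) q) r) t = a.2 at e2
  have hn1 : nv (nv a.2 p) q ≠ a.2 := fun h => hac (nbr_back a p q h).symm
  have hn2 : nv (nv (nv a.2 p) q) r ≠ nv a.2 p := fun h => hbd (nbr_back (nbr a p) q r h).symm
  rw [sh_eq, sh_eq, sh_eq, sh_eq, add_assoc, add_assoc, add_assoc, ← add_zsmul, ← add_zsmul,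
    ← add_zsmul, ← add_assoc, ← add_assoc] at e1
  exact no_shift _ _ (chk4 a.2 p q hn1 r hn2 t e2) e1

theorem len {W : Type} (H : SimpleGraph W)
    (h3 : ∀ a b c, H.Adj a b → H.Adj b c → H.Adj c a → False)
    (h4 : ∀ a b c d, H.Adj a b → H.Adj b c → H.Adj c d → H.Adj d a → a ≠ c → b ≠ d → False)
    (a : W) (w : H.Walk a a) (hw : w.IsCycle) : 5 ≤ w.length := by
  have hlen := hw.three_le_length
  have hnd := hw.support_nodup
  cases w with
  | nil => simp at hlen
  | cons e1 w =>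
    cases w with
    | nil => simp at hlen
    | cons e2 w =>
      cases w with
      | nil => simp at hlen
      | cons e3 w =>
        cases w with
        | nil => exact (h3 _ _ _ e1 e2 e3).elim
        | cons e4 w =>
          cases w with
          | nil =>
            simp only [Walk.support_cons, Walk.support_nil, List.tail_cons, List.nodup_cons,
              List.mem_cons, List.not_mem_nil, or_false, not_or] at hnd
            exact (h4 _ _ _ _ e1 e2 e3 e4 (fun h => hnd.2.1.2 h.symm) hnd.1.2.1).elim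
          | cons e5 w =>
            simp only [Walk.length_cons]
            omega

theorem adj0 (m : ℕ) (i : Fin (m + 3)) (a b : Fin 74) (h : ∃ p : Fin 3, dl a p = 0 ∧ nv a p = b) :
    (G m).Adj (i, a) (i, b) := by
  obtain ⟨p, h1, h2⟩ := h
  refine ⟨p, ?_⟩
  unfold nbr
  refine Prod.ext ?_ h2
  show sh i (dl a p) = i
  rw [h1]
  rfl

theorem not_acyc (m : ℕ) : ¬ (G m).IsAcyclic := by
  intro hac
  have h1 : (G m).Adj ((0 : Fin (m + 3)), (4 : Fin 74)) (0, 5) := adj0 m 0 4 5 (by decide)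
  have h2 : (G m).Adj ((0 : Fin (m + 3)), (5 : Fin 74)) (0, 10) := adj0 m 0 5 10 (by decide)
  have h3 : (G m).Adj ((0 : Fin (m + 3)), (10 : Fin 74)) (0, 7) := adj0 m 0 10 7 (by decide)
  have h4 : (G m).Adj ((0 : Fin (m + 3)), (7 : Fin 74)) (0, 9) := adj0 m 0 7 9 (by decide)
  have h5 : (G m).Adj ((0 : Fin (m + 3)), (9 : Fin 74)) (0, 4) := adj0 m 0 9 4 (by decide)
  refine hac (Walk.cons h1 (Walk.cons h2 (Walk.cons h3 (Walk.cons h4 (Walk.cons h5 Walk.nil))))) ?_
  rw [Walk.cons_isCycle_iff]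
  refine ⟨?_, ?_⟩
  · simp only [Walk.cons_isPath_iff, Walk.isPath_iff_eq_nil, Walk.support_cons, Walk.support_nil,
      List.mem_cons, List.not_mem_nil, or_false, Prod.mk.injEq, true_and]
    decide
  · simp only [Walk.edges_cons, Walk.edges_nil, List.mem_cons, List.not_mem_nil, or_false,
      Sym2.eq_iff, Prod.mk.injEq, true_and]
    decide

end Pool.Agent.W350.SC.PGIR

namespace Pool.Agent.W350.SC

open PGIR

theorem pGIR : S_Gir := by
  intro m
  have h1 : (5 : ℕ∞) ≤ (G m).egirth := by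
    rw [SimpleGraph.le_egirth]
    intro a w hw
    exact_mod_cast len (G m) (fun a b c => no_tri a b c) (fun a b c d => no_sq a b c d) a w hw
  exact ENat.toNat_le_toNat h1 (SimpleGraph.egirth_eq_top.not.mpr (not_acyc m))

end Pool.Agent.W350.SC
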