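import Pool.Agent.W350.SC.Stm

set_option autoImplicit false

namespace Pool.Agent.W350.SC.PHAND

open Finset

theorem two_mem {W : Type} [Fintype W] [DecidableEq W] (H : SimpleGraph W)
    [DecidableRel H.Adj] (e : Sym2 W) (he : e ∈ H.edgeFinset) :
    (univ.filter (fun v : W => v ∈ e)).card = 2 := by
  induction e using Sym2.ind with
  | _ a b =>
    have hab : a ≠ b := by
      have h : H.Adj a b := by simpa using he
      exact h.ne
    have : univ.filter (fun v : W => v ∈ s(a, b)) = {a, b} := by
      ext v; simp
    rw [this, card_pair hab]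

end Pool.Agent.W350.SC.PHAND

namespace Pool.Agent.W350.SC

open Finset

theorem pHAND : S_Hand := by
  intro W _ _ H _ k C hC
  rw [Finset.sum_comm, Finset.mul_sum]
  refine Finset.sum_congr rfl fun i _ => ?_
  have h1 : ∀ v : W, ((C i).filter (fun e => v ∈ e)).card = ∑ e ∈ C i, if v ∈ e then 1 else 0 := by
    intro v; rw [Finset.card_filter]
  simp_rw [h1]
  rw [Finset.sum_comm]
  have h2 : ∀ e ∈ C i, (∑ v : W, if v ∈ e then 1 else 0) = 2 := by
    intro e he
    rw [← Finset.card_filter]
    exact PHAND.two_mem H e (hC i he)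
  rw [Finset.sum_congr rfl h2, Finset.sum_const, smul_eq_mul, mul_comm]

end Pool.Agent.W350.SC
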