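import Pool.Agent.W350.SC.Stm

set_option autoImplicit false

namespace Pool.Agent.W350.SC.PREG

open Pool.Agent.W350.SC

theorem nbr_inj {m : ℕ} (u : V m) : Function.Injective (nbr u) := by
  intro p q h
  exact nv_inj u.2 p q (congrArg Prod.snd h)

theorem main (m : ℕ) : (G m).IsRegularOfDegree 3 := by
  intro u
  have h : (G m).neighborFinset u = Finset.univ.image (nbr u) := by
    ext v
    rw [SimpleGraph.mem_neighborFinset, Finset.mem_image]
    constructor
    · rintro ⟨p, hp⟩
      exact ⟨p, Finset.mem_univ _, hp⟩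
    · rintro ⟨p, -, hp⟩
      exact ⟨p, hp⟩
  rw [← SimpleGraph.card_neighborFinset_eq_degree, h, Finset.card_image_of_injective _ (nbr_inj u)]
  rfl

end Pool.Agent.W350.SC.PREG

theorem Pool.Agent.W350.SC.pREG : Pool.Agent.W350.SC.S_Reg :=
  fun m => Pool.Agent.W350.SC.PREG.main m
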