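import Pool.Agent.W350.SC.Stm

set_option autoImplicit false
set_option maxRecDepth 100000

namespace Pool.Agent.W350.SC.PRING

open Finset

theorem dlne : ∀ (a : Fin 74) (p : Fin 3), dl a p ≠ 0 ↔ (a, p) ∈
    ({(56, 2), (57, 2), (71, 2), (72, 2)} : Finset (Fin 74 × Fin 3)) := by decide +kernel

theorem d56 : dl 56 2 = 1 ∧ nv 56 2 = 57 := by decide +kernel
theorem d57 : dl 57 2 = 2 ∧ nv 57 2 = 56 := by decide +kernel
theorem d71 : dl 71 2 = 2 ∧ nv 71 2 = 72 := by decide +kernel
theorem d72 : dl 72 2 = 1 ∧ nv 72 2 = 71 := by decide +kernel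

theorem split (P : Fin 74 × Fin 3 → Prop) [DecidablePred P] :
    (univ.filter P).card = (univ.filter (fun x => P x ∧ dl x.1 x.2 = 0)).card
      + ((if P (56, 2) then 1 else 0) + (if P (57, 2) then 1 else 0)
        + (if P (71, 2) then 1 else 0) + (if P (72, 2) then 1 else 0)) := by
  have h1 : (univ.filter P).card = (univ.filter (fun x => P x ∧ dl x.1 x.2 = 0)).card
      + (univ.filter (fun x => P x ∧ ¬ dl x.1 x.2 = 0)).card := by
    rw [← Finset.filter_filter, ← Finset.filter_filter, Finset.card_filter_add_card_filter_not]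
  have h2 : (univ.filter (fun x => P x ∧ ¬ dl x.1 x.2 = 0)) =
      ({(56, 2), (57, 2), (71, 2), (72, 2)} : Finset (Fin 74 × Fin 3)).filter P := by
    ext ⟨a, p⟩
    simp only [mem_filter, mem_univ, true_and]
    rw [← dlne a p]
    tauto
  rw [h1, h2]
  congr 1
  rw [card_filter, sum_insert (by decide), sum_insert (by decide), sum_insert (by decide), sum_singleton]
  ring

def din (T : Finset (Fin 74)) : ℕ :=
  (univ.filter (fun x : Fin 74 × Fin 3 => (x.1 ∈ T ∧ nv x.1 x.2 ∉ T) ∧ dl x.1 x.2 = 0)).card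

theorem cutN_eq (T : Finset (Fin 74)) : cutN T = din T
    + ((if (56 : Fin 74) ∈ T then 1 else 0) + (if (57 : Fin 74) ∈ T then 1 else 0)
        + (if (71 : Fin 74) ∈ T then 1 else 0) + (if (72 : Fin 74) ∈ T then 1 else 0)) := by
  unfold cutN din
  rw [split]
  congr 1
  · congr 1
    ext x
    simp only [mem_filter, mem_univ, true_and]
    tauto
  · simp only [d56, d57, d71, d72]
    simp

theorem din_le (T : Finset (Fin 74)) : din T ≤ din Tᶜ := by
  unfold din
  choose q hq1 hq2 hq3 using back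
  refine Finset.card_le_card_of_injOn (fun x => (nv x.1 x.2, q x.1 x.2)) ?_ ?_
  · rintro ⟨a, p⟩ h
    simp only [coe_filter, mem_univ, true_and, Set.mem_ofPred_eq, mem_compl, not_not] at h ⊢
    obtain ⟨⟨h1, h2⟩, h3⟩ := h
    refine ⟨⟨h2, ?_⟩, ?_⟩
    · rw [hq1]; exact h1
    · rw [hq2, h3]; rfl
  · rintro ⟨a, p⟩ - ⟨b, r⟩ - h
    simp only [Prod.mk.injEq] at h
    obtain ⟨h1, h2⟩ := h
    have h3 : a = b := by
      rw [← hq1 a p, ← hq1 b r, h1, h2]
    subst h3
    rw [nv_inj a p r h1]

theorem din_compl (T : Finset (Fin 74)) : din Tᶜ = din T := by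
  apply le_antisymm
  · have := din_le Tᶜ
    rwa [compl_compl] at this
  · exact din_le T

theorem din_two (hc : S_Cut) (T : Finset (Fin 74)) (h1 : T.Nonempty) (h2 : Tᶜ.Nonempty) :
    2 ≤ din T := by
  obtain ⟨a1, a2⟩ := hc T h1
  obtain ⟨b1, b2⟩ := hc Tᶜ h2
  have hcard : T.card + Tᶜ.card = 74 := by
    rw [Finset.card_add_card_compl]; rfl
  rw [cutN_eq] at a1 a2 b1 b2
  rw [din_compl] at b1 b2
  simp only [mem_compl] at b1 b2
  by_contra hlt
  push Not at hlt
  split_ifs at a1 a2 b1 b2 <;> omega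

def sl {m : ℕ} (S : Finset (V m)) (i : Fin (m + 3)) : Finset (Fin 74) :=
  univ.filter (fun a => (i, a) ∈ S)

theorem mem_sl {m : ℕ} (S : Finset (V m)) (i : Fin (m + 3)) (a : Fin 74) :
    a ∈ sl S i ↔ (i, a) ∈ S := by
  unfold sl; simp

/-- cost of the two links between the copies `i` and `i + 1` -/
def lk {m : ℕ} (S : Finset (V m)) (i : Fin (m + 3)) : ℕ :=
  (if (56 : Fin 74) ∈ sl S i ∧ (57 : Fin 74) ∉ sl S (i + 1) then 1 else 0)
    + (if (57 : Fin 74) ∈ sl S (i + 1) ∧ (56 : Fin 74) ∉ sl S i then 1 else 0)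
    + (if (71 : Fin 74) ∈ sl S (i + 1) ∧ (72 : Fin 74) ∉ sl S i then 1 else 0)
    + (if (72 : Fin 74) ∈ sl S i ∧ (71 : Fin 74) ∉ sl S (i + 1) then 1 else 0)

theorem fiber {m : ℕ} (S : Finset (V m)) (i : Fin (m + 3)) :
    (univ.filter (fun x : Fin 74 × Fin 3 => (i, x.1) ∈ S ∧ nbr (i, x.1) x.2 ∉ S)).card
    = din (sl S i)
      + ((if (56 : Fin 74) ∈ sl S i ∧ (57 : Fin 74) ∉ sl S (i + 1) then 1 else 0)
        + (if (57 : Fin 74) ∈ sl S i ∧ (56 : Fin 74) ∉ sl S (i - 1) then 1 else 0)
        + (if (71 : Fin 74) ∈ sl S i ∧ (72 : Fin 74) ∉ sl S (i - 1) then 1 else 0)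
        + (if (72 : Fin 74) ∈ sl S i ∧ (71 : Fin 74) ∉ sl S (i + 1) then 1 else 0)) := by
  rw [split]
  congr 1
  · unfold din
    congr 1
    ext x
    simp only [mem_filter, mem_univ, true_and, mem_sl]
    constructor
    · rintro ⟨⟨h1, h2⟩, h3⟩
      refine ⟨⟨h1, ?_⟩, h3⟩
      unfold nbr sh at h2
      simpa [h3] using h2
    · rintro ⟨⟨h1, h2⟩, h3⟩
      refine ⟨⟨h1, ?_⟩, h3⟩
      unfold nbr sh
      simpa [h3] using h2
  · simp only [mem_sl, nbr, d56, d57, d71, d72, sh]
    simp

theorem cut_ge {m : ℕ} (S : Finset (V m)) :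
    ∑ i, (din (sl S i) + lk S i) ≤ cutG S := by
  have h1 : (univ.filter (fun x : V m × Fin 3 => x.1 ∈ S ∧ nbr x.1 x.2 ∉ S)).card ≤ cutG S := by
    unfold cutG
    refine Finset.card_le_card_of_injOn (fun x => (x.1, nbr x.1 x.2)) ?_ ?_
    · rintro ⟨u, p⟩ h
      simp only [coe_filter, mem_univ, true_and, Set.mem_ofPred_eq] at h ⊢
      exact ⟨h.1, h.2, p, rfl⟩
    · rintro ⟨u, p⟩ - ⟨v, r⟩ - h
      simp only [Prod.mk.injEq] at h
      obtain ⟨h1, h2⟩ := h
      subst h1
      rw [nv_inj u.2 p r (congrArg Prod.snd h2)]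
  have h2 : (univ.filter (fun x : V m × Fin 3 => x.1 ∈ S ∧ nbr x.1 x.2 ∉ S)).card
      = ∑ i : Fin (m + 3),
        (univ.filter (fun x : Fin 74 × Fin 3 => (i, x.1) ∈ S ∧ nbr (i, x.1) x.2 ∉ S)).card := by
    simp only [card_filter]
    rw [Fintype.sum_prod_type, Fintype.sum_prod_type]
    refine Finset.sum_congr rfl (fun i _ => ?_)
    rw [Fintype.sum_prod_type]
  rw [h2] at h1
  refine le_trans (le_of_eq ?_) h1
  simp only [fiber]
  rw [Finset.sum_add_distrib, Finset.sum_add_distrib]
  congr 1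
  unfold lk
  simp only [Finset.sum_add_distrib]
  have e1 : ∑ i : Fin (m + 3),
      (if (57 : Fin 74) ∈ sl S i ∧ (56 : Fin 74) ∉ sl S (i - 1) then 1 else 0)
      = ∑ i : Fin (m + 3),
      (if (57 : Fin 74) ∈ sl S (i + 1) ∧ (56 : Fin 74) ∉ sl S i then 1 else 0) := by
    rw [← Equiv.sum_comp (Equiv.addRight (1 : Fin (m + 3)))]
    simp
  have e2 : ∑ i : Fin (m + 3),
      (if (71 : Fin 74) ∈ sl S i ∧ (72 : Fin 74) ∉ sl S (i - 1) then 1 else 0)
      = ∑ i : Fin (m + 3),
      (if (71 : Fin 74) ∈ sl S (i + 1) ∧ (72 : Fin 74) ∉ sl S i then 1 else 0) := by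
    rw [← Equiv.sum_comp (Equiv.addRight (1 : Fin (m + 3)))]
    simp
  rw [e1, e2]

theorem cyc {m : ℕ} (P : Fin (m + 3) → Prop) (h1 : ∃ i, P i) (h2 : ∃ j, ¬ P j) :
    ∃ i, P i ∧ ¬ P (i + 1) := by
  by_contra h
  push Not at h
  obtain ⟨i, hi⟩ := h1
  obtain ⟨j, hj⟩ := h2
  have hk : ∀ (k : ℕ) (hk : k < m + 3), P (i + ⟨k, hk⟩) := by
    intro k
    induction k with
    | zero =>
      intro h0
      have e : (⟨0, h0⟩ : Fin (m + 3)) = 0 := rfl
      rw [e, add_zero]
      exact hi
    | succ k ih =>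
      intro h0
      have h2 := h _ (ih (by omega))
      rw [add_assoc] at h2
      have e : (⟨k, by omega⟩ : Fin (m + 3)) + 1 = ⟨k + 1, h0⟩ := by
        apply Fin.ext
        rw [Fin.val_add]
        simp only [Fin.val_one]
        exact Nat.mod_eq_of_lt h0
      rw [e] at h2
      exact h2
  apply hj
  have := hk (j - i).val (j - i).isLt
  rw [Fin.eta] at this
  simpa using this

/-- full copy followed by an empty copy -/
theorem lk_fe {m : ℕ} (S : Finset (V m)) (i : Fin (m + 3)) (h1 : sl S i = univ)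
    (h2 : sl S (i + 1) = ∅) : lk S i = 2 := by
  unfold lk
  rw [h1, h2]
  simp

/-- empty copy followed by a full copy -/
theorem lk_ef {m : ℕ} (S : Finset (V m)) (i : Fin (m + 3)) (h1 : sl S i = ∅)
    (h2 : sl S (i + 1) = univ) : lk S i = 2 := by
  unfold lk
  rw [h1, h2]
  simp

theorem ne_emp : (univ : Finset (Fin 74)) ≠ ∅ := Finset.univ_nonempty.ne_empty

theorem two_le_sum {m : ℕ} (f : Fin (m + 3) → ℕ) (i j : Fin (m + 3)) (h : i ≠ j) :
    f i + f j ≤ ∑ k, f k := by
  rw [← Finset.sum_pair h]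
  exact Finset.sum_le_sum_of_subset (Finset.subset_univ _)

theorem one_le_sum {m : ℕ} (f : Fin (m + 3) → ℕ) (i : Fin (m + 3)) :
    f i ≤ ∑ k, f k := Finset.single_le_sum (fun _ _ => Nat.zero_le _) (Finset.mem_univ i)

theorem ne_succ {m : ℕ} (i : Fin (m + 3)) : i - 1 ≠ i := by
  intro h
  have h0 : (1 : Fin (m + 3)) = 0 := by
    have := congrArg (fun x => i - x) h
    simp at this
  have := congrArg Fin.val h0
  simp at this

theorem last {m : ℕ} (hc : S_Cut) (S : Finset (V m)) (i0 : Fin (m + 3))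
    (hne : (sl S i0).Nonempty) (hne' : (sl S i0)ᶜ.Nonempty)
    (hemp : ∀ i, i ≠ i0 → sl S i = ∅) : 3 ≤ cutG S ∧ (cutG S = 3 → S.card = 1) := by
  have hge : cutN (sl S i0) ≤ cutG S := by
    refine le_trans ?_ (cut_ge S)
    rw [Finset.sum_add_distrib, cutN_eq]
    refine add_le_add (one_le_sum (fun i => din (sl S i)) i0) ?_
    refine le_trans ?_ (two_le_sum (lk S) i0 (i0 - 1) (ne_succ i0).symm)
    unfold lk
    have h1 : sl S (i0 + 1) = ∅ := by
      apply hemp
      intro h
      have := ne_succ (i0 + 1)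
      rw [add_sub_cancel_right] at this
      exact this h.symm
    have h2 : sl S (i0 - 1) = ∅ := hemp _ (ne_succ i0)
    rw [sub_add_cancel, h1, h2]
    simp only [notMem_empty, not_false_eq_true, and_true, false_and, if_false]
    omega
  obtain ⟨c1, c2⟩ := hc _ hne
  refine ⟨le_trans c1 hge, fun h => ?_⟩
  have h3 : (sl S i0).card = 1 := c2 (le_antisymm (h ▸ hge) c1)
  have h4 : S = (sl S i0).image (fun a => (i0, a)) := by
    ext ⟨i, a⟩
    simp only [mem_image, mem_sl, Prod.mk.injEq]
    constructor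
    · intro h
      by_cases hi : i = i0
      · subst hi
        exact ⟨a, h, rfl, rfl⟩
      · have := hemp i hi
        have h5 : a ∈ sl S i := (mem_sl S i a).2 h
        rw [this] at h5
        simp at h5
    · rintro ⟨b, hb, rfl, rfl⟩
      exact hb
  rw [h4, Finset.card_image_of_injective, h3]
  intro a b h
  simpa using h

theorem last' {m : ℕ} (hc : S_Cut) (S : Finset (V m)) (i0 : Fin (m + 3))
    (hne : (sl S i0).Nonempty) (hne' : (sl S i0)ᶜ.Nonempty)
    (hemp : ∀ i, i ≠ i0 → sl S i = univ) : 3 ≤ cutG S ∧ (cutG S = 3 → Sᶜ.card = 1) := by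
  have hge : cutN (sl S i0)ᶜ ≤ cutG S := by
    refine le_trans ?_ (cut_ge S)
    rw [Finset.sum_add_distrib, cutN_eq, din_compl]
    refine add_le_add (one_le_sum (fun i => din (sl S i)) i0) ?_
    refine le_trans ?_ (two_le_sum (lk S) i0 (i0 - 1) (ne_succ i0).symm)
    unfold lk
    have h1 : sl S (i0 + 1) = univ := by
      apply hemp
      intro h
      have := ne_succ (i0 + 1)
      rw [add_sub_cancel_right] at this
      exact this h.symm
    have h2 : sl S (i0 - 1) = univ := hemp _ (ne_succ i0)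
    rw [sub_add_cancel, h1, h2]
    simp only [mem_univ, not_true_eq_false, and_false, true_and, if_false, mem_compl]
    omega
  obtain ⟨c1, c2⟩ := hc _ hne'
  refine ⟨le_trans c1 hge, fun h => ?_⟩
  have h3 : (sl S i0)ᶜ.card = 1 := c2 (le_antisymm (h ▸ hge) c1)
  have h4 : Sᶜ = (sl S i0)ᶜ.image (fun a => (i0, a)) := by
    ext ⟨i, a⟩
    simp only [mem_image, mem_sl, Prod.mk.injEq, mem_compl]
    constructor
    · intro h
      by_cases hi : i = i0
      · subst hi
        exact ⟨a, h, rfl, rfl⟩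
      · exfalso
        apply h
        rw [← mem_sl, hemp i hi]
        simp
    · rintro ⟨b, hb, rfl, rfl⟩
      exact hb
  rw [h4, Finset.card_image_of_injective, h3]
  intro a b h
  simpa using h

end Pool.Agent.W350.SC.PRING

namespace Pool.Agent.W350.SC

open Finset PRING

theorem pRING : S_Ring := by
  intro hc m S hS hS'
  have hsum := cut_ge S
  rw [Finset.sum_add_distrib] at hsum
  -- uniform: empty or full
  by_cases hnu : ∃ i0, (sl S i0).Nonempty ∧ (sl S i0)ᶜ.Nonempty
  · obtain ⟨i0, hi1, hi2⟩ := hnu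
    have hd0 : 2 ≤ din (sl S i0) := din_two hc _ hi1 hi2
    by_cases hnu2 : ∃ i1, i1 ≠ i0 ∧ (sl S i1).Nonempty ∧ (sl S i1)ᶜ.Nonempty
    · obtain ⟨i1, hne, hi3, hi4⟩ := hnu2
      have hd1 : 2 ≤ din (sl S i1) := din_two hc _ hi3 hi4
      have : din (sl S i1) + din (sl S i0) ≤ ∑ i, din (sl S i) :=
        two_le_sum (fun i => din (sl S i)) i1 i0 hne
      constructor
      · omega
      · intro h; omega
    · push Not at hnu2
      have huni : ∀ i, i ≠ i0 → sl S i = ∅ ∨ sl S i = univ := by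
        intro i hi
        by_cases he : (sl S i).Nonempty
        · right
          have := hnu2 i hi he
          rw [Finset.compl_eq_empty_iff] at this
          exact this
        · left
          exact Finset.not_nonempty_iff_eq_empty.1 he
      by_cases hE : ∃ i, i ≠ i0 ∧ sl S i = ∅
      · by_cases hF : ∃ i, i ≠ i0 ∧ sl S i = univ
        · -- both kinds
          have hsome : ∃ i, lk S i = 2 := by
            obtain ⟨e, he1, he2⟩ := hE
            obtain ⟨f, hf1, hf2⟩ := hF
            obtain ⟨i, hi, hi'⟩ := cyc (fun i => sl S i = univ ∨ i = i0) ⟨f, Or.inl hf2⟩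
              ⟨e, by
                push Not
                refine ⟨?_, he1⟩
                rw [he2]; exact ne_emp.symm⟩
            push Not at hi'
            have hi'' : sl S (i + 1) = ∅ := (huni (i + 1) hi'.2).resolve_right hi'.1
            by_cases hii : i = i0
            · subst hii
              obtain ⟨j, hj, hj'⟩ := cyc (fun j => sl S j = ∅ ∨ j = i) ⟨e, Or.inl he2⟩
                ⟨f, by
                  push Not
                  refine ⟨?_, hf1⟩
                  rw [hf2]; exact Finset.univ_nonempty⟩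
              push Not at hj'
              have hj'' : sl S (j + 1) = univ := (huni (j + 1) hj'.2).resolve_left
                (Finset.nonempty_iff_ne_empty.1 hj'.1)
              have hji : j ≠ i := by
                rintro rfl
                rw [hi''] at hj''
                exact ne_emp hj''.symm
              exact ⟨j, lk_ef S j (hj.resolve_right hji) hj''⟩
            · exact ⟨i, lk_fe S i (hi.resolve_right hii) hi''⟩
          obtain ⟨i, hi⟩ := hsome
          have h1 := one_le_sum (lk S) i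
          have h2 : din (sl S i0) ≤ ∑ i, din (sl S i) := one_le_sum (fun i => din (sl S i)) i0
          constructor
          · omega
          · intro h; omega
        · push Not at hF
          obtain ⟨h1, h2⟩ := last hc S i0 hi1 hi2
            (fun i hi => (huni i hi).resolve_right (hF i hi))
          exact ⟨h1, fun h => Or.inl (h2 h)⟩
      · push Not at hE
        obtain ⟨h1, h2⟩ := last' hc S i0 hi1 hi2
          (fun i hi => (huni i hi).resolve_left (Finset.nonempty_iff_ne_empty.1 (hE i hi)))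
        exact ⟨h1, fun h => Or.inr (h2 h)⟩
  · push Not at hnu
    have huni : ∀ i, sl S i = ∅ ∨ sl S i = univ := by
      intro i
      by_cases he : (sl S i).Nonempty
      · right
        have := hnu i he
        rw [Finset.compl_eq_empty_iff] at this
        exact this
      · left
        exact Finset.not_nonempty_iff_eq_empty.1 he
    have hE : ∃ i, sl S i = ∅ := by
      obtain ⟨⟨i, a⟩, ha⟩ := hS'
      refine ⟨i, (huni i).resolve_right (fun h => ?_)⟩
      have : a ∈ sl S i := by rw [h]; simp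
      rw [mem_sl] at this
      exact (Finset.mem_compl.1 ha) this
    have hF : ∃ i, sl S i = univ := by
      obtain ⟨⟨i, a⟩, ha⟩ := hS
      refine ⟨i, (huni i).resolve_left (fun h => ?_)⟩
      have : a ∈ sl S i := (mem_sl S i a).2 ha
      rw [h] at this
      simp at this
    obtain ⟨e, he⟩ := hE
    obtain ⟨f, hf⟩ := hF
    obtain ⟨i, hi, hi'⟩ := cyc (fun i => sl S i = univ) ⟨f, hf⟩
      ⟨e, by rw [he]; exact ne_emp.symm⟩
    obtain ⟨j, hj, hj'⟩ := cyc (fun i => sl S i = ∅) ⟨e, he⟩
      ⟨f, by rw [hf]; exact ne_emp⟩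
    have hi'' := (huni (i + 1)).resolve_right hi'
    have hj'' := (huni (j + 1)).resolve_left hj'
    have h1 := lk_fe S i hi hi''
    have h2 := lk_ef S j hj hj''
    have hij : i ≠ j := by
      rintro rfl
      rw [hi] at hj
      exact ne_emp hj
    have h3 := two_le_sum (lk S) i j hij
    constructor
    · omega
    · intro h; omega

end Pool.Agent.W350.SC
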