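import Pool.Agent.W350.SC.Stm

/-! Project SC, part STA. -/

set_option autoImplicit false

namespace Pool.Agent.W350.SC

namespace PSTA

lemma insA_coe (x : ℕ) (l : List ℕ) : ((insA x l : List ℕ) : Multiset ℕ) = x ::ₘ (l : Multiset ℕ) := by
  induction l with
  | nil => rfl
  | cons y l ih =>
    unfold insA
    cases Nat.ble x y with
    | true => rfl
    | false =>
      show ((y :: insA x l : List ℕ) : Multiset ℕ) = _
      rw [← Multiset.cons_coe, ih, Multiset.cons_swap, Multiset.cons_coe]

lemma ins_zero (l : List ℕ) : ins 0 l = l := rfl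

lemma ins_coe (v : ℕ) (hv : v ≠ 0) (l : List ℕ) :
    ((ins v l : List ℕ) : Multiset ℕ) = v ::ₘ (l : Multiset ℕ) := by
  unfold ins
  have : Nat.beq v 0 = false := by
    cases v with
    | zero => exact absurd rfl hv
    | succ n => rfl
  rw [this]
  exact insA_coe v l

lemma picks_mem (o : List ℕ) (v : ℕ) (hv : v ∈ o) :
    ∃ r : List ℕ, (v, r) ∈ picks o ∧ (o : Multiset ℕ) = v ::ₘ (r : Multiset ℕ) := by
  induction o with
  | nil => simp at hv
  | cons a l ih =>
    by_cases h : v = a
    · subst h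
      exact ⟨l, by simp [picks], rfl⟩
    · have h1 : v ∈ l := by
        rcases List.mem_cons.mp hv with h2 | h2
        · exact absurd h2 h
        · exact h2
      obtain ⟨r, hr, hr2⟩ := ih h1
      refine ⟨a :: r, ?_, ?_⟩
      · unfold picks
        rw [List.mem_cons]
        right
        rw [List.mem_map]
        exact ⟨(v, r), hr, rfl⟩
      · rw [← Multiset.cons_coe, hr2, Multiset.cons_swap, Multiset.cons_coe]

lemma tb (v i j k : ℕ) (hij : i ≠ j) : (v ^^^ (2 ^ i + 2 ^ j)).testBit k = true ↔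
    (v.testBit k = true ↔ ¬ (k = i ∨ k = j)) := by
  have h0 : ∀ i j : ℕ, j < i → 2 ^ i + 2 ^ j = 2 ^ i ||| 2 ^ j := by
    intro i j h
    have := Nat.two_pow_add_eq_or_of_lt (Nat.pow_lt_pow_right (by norm_num : 1 < 2) h) 1
    rwa [mul_one] at this
  have h1 : 2 ^ i + 2 ^ j = 2 ^ i ||| 2 ^ j := by
    rcases lt_or_gt_of_ne hij with h | h
    · rw [add_comm, h0 j i h, Nat.lor_comm]
    · exact h0 i j h
  rw [h1, Nat.testBit_xor, Nat.testBit_or, Nat.testBit_two_pow, Nat.testBit_two_pow]
  by_cases hi : i = k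
  · subst hi
    cases v.testBit i <;> simp
  · by_cases hj : j = k
    · subst hj
      cases v.testBit j <;> simp
    · have hi' : ¬ k = i := fun h => hi h.symm
      have hj' : ¬ k = j := fun h => hj h.symm
      cases v.testBit k <;> simp [hi, hj, hi', hj']

variable {ι : Type} [DecidableEq ι]

lemma ins_map (N : Finset ι) (f : ι → ℕ) (c : ι) (v : ℕ) (l : List ℕ)
    (hl : (l : Multiset ℕ) = N.val.map f) (hc : c ∉ N) :
    ((ins v l : List ℕ) : Multiset ℕ) =
      ((if v = 0 then N else insert c N).val.map (Function.update f c v)) := by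
  have h1 : N.val.map (Function.update f c v) = N.val.map f := by
    apply Multiset.map_congr rfl
    intro d hd
    have : d ≠ c := by
      rintro rfl
      exact hc hd
    rw [Function.update_of_ne this]
  by_cases hv : v = 0
  · subst hv
    rw [ins_zero, if_pos rfl, h1, hl]
  · rw [if_neg hv, ins_coe v hv, Finset.insert_val_of_notMem hc, Multiset.map_cons, h1, hl,
      Function.update_self]

lemma upd (L : ℕ → Finset ι) (bd : Finset ℕ) (N : Finset ι) (f : ι → ℕ) (a b : ι) (va vb : ℕ)
    (o : List ℕ) (ho : (o : Multiset ℕ) = N.val.map f) (hab : a ≠ b) (ha : a ∉ N) (hb : b ∉ N)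
    (h2 : ∀ e ∈ bd, ∀ c, c ∈ L e ↔ (c = a ∧ va.testBit e = true) ∨
      (c = b ∧ vb.testBit e = true) ∨ (c ∈ N ∧ (f c).testBit e = true))
    (ha3 : ∀ e, va.testBit e = true → e ∈ bd) (hb3 : ∀ e, vb.testBit e = true → e ∈ bd)
    (h3 : ∀ c ∈ N, ∀ e, (f c).testBit e = true → e ∈ bd) :
    Mt L bd (ins va (ins vb o)) := by
  have e1 := ins_map N f b vb o ho hb
  have ha' : a ∉ (if vb = 0 then N else insert b N) := by
    split_ifs
    · exact ha
    · rw [Finset.mem_insert]
      rintro (h | h)
      · exact hab h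
      · exact ha h
  have e2 := ins_map _ _ a va _ e1 ha'
  have key : ∀ c e, (c ∈ (if va = 0 then (if vb = 0 then N else insert b N) else
      insert a (if vb = 0 then N else insert b N)) ∧
      (Function.update (Function.update f b vb) a va c).testBit e = true) ↔
      ((c = a ∧ va.testBit e = true) ∨ (c = b ∧ vb.testBit e = true) ∨
        (c ∈ N ∧ (f c).testBit e = true)) := by
    intro c e
    by_cases hca : c = a
    · subst hca
      rw [Function.update_self]
      by_cases hva : va = 0
      · subst hva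
        simp [hab, ha]
      · rw [if_neg hva]
        simp [hab, ha]
    · rw [Function.update_of_ne hca]
      have e3 : (c ∈ (if va = 0 then (if vb = 0 then N else insert b N) else
          insert a (if vb = 0 then N else insert b N))) ↔ c ∈ (if vb = 0 then N else insert b N) := by
        split_ifs <;> simp [hca]
      rw [e3]
      by_cases hcb : c = b
      · subst hcb
        rw [Function.update_self]
        by_cases hvb : vb = 0
        · subst hvb
          simp [hb, hca]
        · rw [if_neg hvb]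
          simp [hca, hb]
      · rw [Function.update_of_ne hcb]
        split_ifs <;> simp [hca, hcb]
  refine ⟨_, _, e2, ?_, ?_⟩
  · intro e he c
    rw [h2 e he c, key]
  · intro c hc e hte
    rcases (key c e).mp ⟨hc, hte⟩ with ⟨-, h⟩ | ⟨-, h⟩ | ⟨h, h'⟩
    · exact ha3 e h
    · exact hb3 e h
    · exact h3 c h e h'

omit [DecidableEq ι] in
lemma withB_coe (N : Finset ι) (f : ι → ℕ) (e : ℕ) (s : List ℕ)
    (hs : (s : Multiset ℕ) = N.val.map f) :
    ((withB e s : List ℕ) : Multiset ℕ) =
      ((N.filter (fun c => (f c).testBit e = true)).val.map f) := by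
  have : withB e s = s.filter (fun a => decide (a.testBit e = true)) := by
    unfold withB
    congr 1
    funext a
    simp
  rw [this, ← Multiset.filter_coe, hs, Multiset.filter_map, Finset.filter_val]
  rfl

omit [DecidableEq ι] in
lemma noB_coe (N : Finset ι) (f : ι → ℕ) (e : ℕ) (s : List ℕ)
    (hs : (s : Multiset ℕ) = N.val.map f) :
    ((noB e s : List ℕ) : Multiset ℕ) =
      ((N.filter (fun c => ¬ (f c).testBit e = true)).val.map f) := by
  have : noB e s = s.filter (fun a => decide (¬ a.testBit e = true)) := by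
    unfold noB
    congr 1
    funext a
    cases a.testBit e <;> simp
  rw [this, ← Multiset.filter_coe, hs, Multiset.filter_map, Finset.filter_val]
  rfl

lemma caseA (L : ℕ → Finset ι) (bd : Finset ℕ) (N : Finset ι) (f : ι → ℕ) (a b : ι)
    (e u w : ℕ) (he : e ∈ bd) (hu : u ∉ bd) (hw : w ∉ bd) (huw : u ≠ w) (hab : a ≠ b)
    (h2 : ∀ e ∈ bd, ∀ c, c ∈ L e ↔ c ∈ N ∧ (f c).testBit e = true)
    (h3 : ∀ c ∈ N, ∀ e, (f c).testBit e = true → e ∈ bd)
    (hLe : L e = {a}) (hLu : L u = {b}) (hLw : L w = {a, b}) (v0 : ℕ)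
    (hv0 : ∀ k, v0.testBit k = true ↔ b ∈ N ∧ (f b).testBit k = true)
    (o : List ℕ) (ho : (o : Multiset ℕ) = ((N.erase a).erase b).val.map f) :
    Mt L (insert u (insert w (bd.erase e)))
      (ins (f a ^^^ (2 ^ e + 2 ^ w)) (ins (v0 ^^^ (2 ^ u + 2 ^ w)) o)) := by
  have hue : u ≠ e := by rintro rfl; exact hu he
  have hwe : w ≠ e := by rintro rfl; exact hw he
  have hae : a ∈ N ∧ (f a).testBit e = true := (h2 e he a).mp (by rw [hLe]; simp)
  have hce : ∀ c, c ∈ N → (f c).testBit e = true → c = a := by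
    intro c hc hc2
    have := (h2 e he c).mpr ⟨hc, hc2⟩
    rw [hLe] at this
    simpa using this
  have hcu : ∀ c ∈ N, ¬ (f c).testBit u = true := fun c hc h => hu (h3 c hc u h)
  have hcw : ∀ c ∈ N, ¬ (f c).testBit w = true := fun c hc h => hw (h3 c hc w h)
  have ha0 : a ∉ (N.erase a).erase b := by simp
  have hb0 : b ∉ (N.erase a).erase b := by simp
  refine upd L _ _ f a b _ _ o ho hab ha0 hb0 ?_ ?_ ?_ ?_
  · intro k hk c
    rw [tb _ _ _ _ hwe.symm, tb _ _ _ _ huw, hv0]
    rw [Finset.mem_insert, Finset.mem_insert, Finset.mem_erase] at hk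
    rw [Finset.mem_erase, Finset.mem_erase]
    rcases hk with rfl | rfl | ⟨hke, hk⟩
    · have h4 := hcu a hae.1
      have h5 : ¬ (b ∈ N ∧ (f b).testBit k = true) := fun h => hcu b h.1 h.2
      have h6 : ¬ ((c ≠ b ∧ c ≠ a ∧ c ∈ N) ∧ (f c).testBit k = true) :=
        fun h => hcu c h.1.2.2 h.2
      rw [hLu, Finset.mem_singleton]
      tauto
    · have h4 := hcw a hae.1
      have h5 : ¬ (b ∈ N ∧ (f b).testBit k = true) := fun h => hcw b h.1 h.2
      have h6 : ¬ ((c ≠ b ∧ c ≠ a ∧ c ∈ N) ∧ (f c).testBit k = true) :=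
        fun h => hcw c h.1.2.2 h.2
      rw [hLw, Finset.mem_insert, Finset.mem_singleton]
      tauto
    · have hku : k ≠ u := by rintro rfl; exact hu hk
      have hkw : k ≠ w := by rintro rfl; exact hw hk
      rw [h2 k hk c]
      by_cases hca : c = a
      · subst hca
        have := hae.1
        tauto
      · by_cases hcb : c = b
        · subst hcb
          tauto
        · tauto
  · intro k hk
    rw [tb _ _ _ _ hwe.symm] at hk
    rw [Finset.mem_insert, Finset.mem_insert, Finset.mem_erase]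
    by_cases hke : k = e
    · subst hke
      have := hae.2
      tauto
    · by_cases hkw : k = w
      · tauto
      · have : (f a).testBit k = true := hk.mpr (by tauto)
        exact Or.inr (Or.inr ⟨hke, h3 a hae.1 k this⟩)
  · intro k hk
    rw [tb _ _ _ _ huw, hv0] at hk
    rw [Finset.mem_insert, Finset.mem_insert, Finset.mem_erase]
    by_cases hku : k = u
    · tauto
    · by_cases hkw : k = w
      · tauto
      · have h4 : b ∈ N ∧ (f b).testBit k = true := hk.mpr (by tauto)
        refine Or.inr (Or.inr ⟨?_, h3 b h4.1 k h4.2⟩)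
        rintro rfl
        exact hab (hce b h4.1 h4.2).symm
  · intro c hc k hk
    rw [Finset.mem_erase, Finset.mem_erase] at hc
    rw [Finset.mem_insert, Finset.mem_insert, Finset.mem_erase]
    refine Or.inr (Or.inr ⟨?_, h3 c hc.2.2 k hk⟩)
    rintro rfl
    exact hc.2.1 (hce c hc.2.2 hk)

lemma caseB (L : ℕ → Finset ι) (bd : Finset ℕ) (N : Finset ι) (f : ι → ℕ) (a b : ι)
    (e u w : ℕ) (he : e ∈ bd) (hu : u ∉ bd) (hw : w ∉ bd) (huw : u ≠ w) (hab : a ≠ b)
    (h2 : ∀ e ∈ bd, ∀ c, c ∈ L e ↔ c ∈ N ∧ (f c).testBit e = true)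
    (h3 : ∀ c ∈ N, ∀ e, (f c).testBit e = true → e ∈ bd)
    (hLe : L e = {a, b}) (hLu : L u = {a}) (hLw : L w = {b})
    (o : List ℕ) (ho : (o : Multiset ℕ) = ((N.erase a).erase b).val.map f) :
    Mt L (insert u (insert w (bd.erase e)))
      (ins (f a ^^^ (2 ^ e + 2 ^ u)) (ins (f b ^^^ (2 ^ e + 2 ^ w)) o)) := by
  have hue : u ≠ e := by rintro rfl; exact hu he
  have hwe : w ≠ e := by rintro rfl; exact hw he
  have hae : a ∈ N ∧ (f a).testBit e = true := (h2 e he a).mp (by rw [hLe]; simp)
  have hbe : b ∈ N ∧ (f b).testBit e = true := (h2 e he b).mp (by rw [hLe]; simp)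
  have hce : ∀ c, c ∈ N → (f c).testBit e = true → c = a ∨ c = b := by
    intro c hc hc2
    have := (h2 e he c).mpr ⟨hc, hc2⟩
    rw [hLe] at this
    simpa using this
  have hcu : ∀ c ∈ N, ¬ (f c).testBit u = true := fun c hc h => hu (h3 c hc u h)
  have hcw : ∀ c ∈ N, ¬ (f c).testBit w = true := fun c hc h => hw (h3 c hc w h)
  have ha0 : a ∉ (N.erase a).erase b := by simp
  have hb0 : b ∉ (N.erase a).erase b := by simp
  refine upd L _ _ f a b _ _ o ho hab ha0 hb0 ?_ ?_ ?_ ?_
  · intro k hk c
    rw [tb _ _ _ _ hue.symm, tb _ _ _ _ hwe.symm]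
    rw [Finset.mem_insert, Finset.mem_insert, Finset.mem_erase] at hk
    rw [Finset.mem_erase, Finset.mem_erase]
    rcases hk with rfl | rfl | ⟨hke, hk⟩
    · have h4 := hcu a hae.1
      have h5 := hcu b hbe.1
      have h6 : ¬ ((c ≠ b ∧ c ≠ a ∧ c ∈ N) ∧ (f c).testBit k = true) :=
        fun h => hcu c h.1.2.2 h.2
      rw [hLu, Finset.mem_singleton]
      tauto
    · have h4 := hcw a hae.1
      have h5 := hcw b hbe.1
      have h6 : ¬ ((c ≠ b ∧ c ≠ a ∧ c ∈ N) ∧ (f c).testBit k = true) :=
        fun h => hcw c h.1.2.2 h.2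
      rw [hLw, Finset.mem_singleton]
      tauto
    · have hku : k ≠ u := by rintro rfl; exact hu hk
      have hkw : k ≠ w := by rintro rfl; exact hw hk
      rw [h2 k hk c]
      by_cases hca : c = a
      · subst hca
        have := hae.1
        tauto
      · by_cases hcb : c = b
        · subst hcb
          have := hbe.1
          tauto
        · tauto
  · intro k hk
    rw [tb _ _ _ _ hue.symm] at hk
    rw [Finset.mem_insert, Finset.mem_insert, Finset.mem_erase]
    by_cases hke : k = e
    · subst hke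
      have := hae.2
      tauto
    · by_cases hkw : k = u
      · tauto
      · have : (f a).testBit k = true := hk.mpr (by tauto)
        exact Or.inr (Or.inr ⟨hke, h3 a hae.1 k this⟩)
  · intro k hk
    rw [tb _ _ _ _ hwe.symm] at hk
    rw [Finset.mem_insert, Finset.mem_insert, Finset.mem_erase]
    by_cases hke : k = e
    · subst hke
      have := hbe.2
      tauto
    · by_cases hkw : k = w
      · tauto
      · have : (f b).testBit k = true := hk.mpr (by tauto)
        exact Or.inr (Or.inr ⟨hke, h3 b hbe.1 k this⟩)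
  · intro c hc k hk
    rw [Finset.mem_erase, Finset.mem_erase] at hc
    rw [Finset.mem_insert, Finset.mem_insert, Finset.mem_erase]
    refine Or.inr (Or.inr ⟨?_, h3 c hc.2.2 k hk⟩)
    rintro rfl
    rcases hce c hc.2.2 hk with h | h
    · exact hc.2.1 h
    · exact hc.1 h

/-- the choice of the rest -/
lemma choice (N : Finset ι) (f : ι → ℕ) (a b : ι) (hab : a ≠ b) (o : List ℕ)
    (ho : (o : Multiset ℕ) = (N.erase a).val.map f) :
    ∃ p ∈ ((0, o) :: picks o), ((p.2 : List ℕ) : Multiset ℕ) = ((N.erase a).erase b).val.map f ∧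
      ∀ k, p.1.testBit k = true ↔ b ∈ N ∧ (f b).testBit k = true := by
  by_cases hb : b ∈ N
  · have hb' : b ∈ N.erase a := Finset.mem_erase.mpr ⟨hab.symm, hb⟩
    have hfb : f b ∈ o := by
      rw [← Multiset.mem_coe, ho, Multiset.mem_map]
      exact ⟨b, hb', rfl⟩
    obtain ⟨r, hr, hr2⟩ := picks_mem o (f b) hfb
    refine ⟨(f b, r), List.mem_cons_of_mem _ hr, ?_, ?_⟩
    · have h1 : (N.erase a).val.map f = f b ::ₘ ((N.erase a).erase b).val.map f := by
        rw [← Multiset.map_cons, ← Finset.insert_val_of_notMem (Finset.notMem_erase b _),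
          Finset.insert_erase hb']
      rw [ho, h1] at hr2
      exact (Multiset.cons_inj_right _).mp hr2.symm
    · intro k
      simp [hb]
  · refine ⟨(0, o), List.mem_cons_self, ?_, ?_⟩
    · have : b ∉ N.erase a := fun h => hb (Finset.mem_of_mem_erase h)
      rw [Finset.erase_eq_of_notMem this]
      exact ho
    · intro k
      simp [hb]

end PSTA

open PSTA in
theorem pSTA : S_StA := by
  intro ι _ L bd e x y s he hx hy hxy hP hM
  obtain ⟨N, f, hs, h2, h3⟩ := hM
  have hwB := withB_coe N f e s hs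
  have hnB := noB_coe N f e s hs
  have hfil : ∀ c, c ∈ N.filter (fun c => (f c).testBit e = true) ↔ c ∈ L e := by
    intro c
    rw [Finset.mem_filter, h2 e he c]
  have hfil1 : N.filter (fun c => (f c).testBit e = true) = L e := Finset.ext hfil
  have hfil2 : N.filter (fun c => ¬ (f c).testBit e = true) = N \ L e := by
    ext c
    rw [Finset.mem_filter, Finset.mem_sdiff, h2 e he c]
    tauto
  rw [hfil1] at hwB
  rw [hfil2] at hnB
  obtain ⟨a, b, hab, hcase⟩ := hP
  have hone : ∀ (u w : ℕ), u ∉ bd → w ∉ bd → u ≠ w → L e = {a} → L u = {b} → L w = {a, b} →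
      ∃ o : List ℕ, withB e s = [f a] ∧ noB e s = o ∧ ∃ p ∈ ((0, o) :: picks o),
        Mt L (insert u (insert w (bd.erase e)))
          (ins (f a ^^^ (2 ^ e + 2 ^ w)) (ins (p.1 ^^^ (2 ^ u + 2 ^ w)) p.2)) := by
    intro u w hu hw huw hLe hLu hLw
    refine ⟨noB e s, ?_, rfl, ?_⟩
    · rw [hLe] at hwB
      rw [← Multiset.coe_eq_singleton, hwB]
      rfl
    · have ho : ((noB e s : List ℕ) : Multiset ℕ) = (N.erase a).val.map f := by
        rw [hnB, hLe, Finset.sdiff_singleton_eq_erase]
      obtain ⟨p, hp, hp2, hp3⟩ := choice N f a b hab _ ho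
      exact ⟨p, hp, caseA L bd N f a b e u w he hu hw huw hab h2 h3 hLe hLu hLw p.1 hp3 p.2 hp2⟩
  rcases hcase with ⟨h4, h5, h6⟩ | ⟨h4, h5, h6⟩ | ⟨h4, h5, h6⟩
  · obtain ⟨o, ho1, ho2, p, hp, hM⟩ := hone x y hx hy hxy h4 h5 h6
    refine ⟨_, ?_, hM⟩
    unfold stA
    rw [ho1, ho2]
    simp only
    rw [List.mem_flatMap]
    exact ⟨p, hp, by simp⟩
  · obtain ⟨o, ho1, ho2, p, hp, hM⟩ := hone y x hy hx hxy.symm h4 h5 h6
    rw [Finset.insert_comm, add_comm (2 ^ y) (2 ^ x)] at hM
    refine ⟨_, ?_, hM⟩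
    unfold stA
    rw [ho1, ho2]
    simp only
    rw [List.mem_flatMap]
    exact ⟨p, hp, by simp⟩
  · have ho : ((noB e s : List ℕ) : Multiset ℕ) = ((N.erase a).erase b).val.map f := by
      rw [hnB, h6]
      congr 2
      ext c
      simp only [Finset.mem_sdiff, Finset.mem_insert, Finset.mem_singleton, Finset.mem_erase]
      tauto
    have hM := caseB L bd N f a b e x y he hx hy hxy hab h2 h3 h6 h4 h5 _ ho
    have hM' := caseB L bd N f b a e y x he hy hx hxy.symm hab.symm h2 h3
      (by rw [h6, Finset.pair_comm]) h5 h4 _ (by rw [ho, Finset.erase_right_comm])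
    rw [Finset.insert_comm] at hM'
    have hw : ((withB e s : List ℕ) : Multiset ℕ) = ((([f a, f b] : List ℕ)) : Multiset ℕ) := by
      rw [hwB, h6]
      rw [Finset.insert_val_of_notMem (by simpa using hab)]
      rfl
    rw [Multiset.coe_eq_coe] at hw
    have hw2 : withB e s = [f a, f b] ∨ withB e s = [f b, f a] := by
      have hlen := hw.length_eq
      match hh : withB e s, hlen with
      | [p, q], _ =>
        rw [hh] at hw
        have h7 := hw.symm.mem_iff (a := p)
        rcases List.perm_pair.mp hw with h | h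
        · exact Or.inl h
        · exact Or.inr h
    rcases hw2 with hw2 | hw2
    · refine ⟨_, ?_, hM⟩
      unfold stA
      rw [hw2]
      simp
    · refine ⟨_, ?_, hM'⟩
      unfold stA
      rw [hw2]
      simp

end Pool.Agent.W350.SC
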