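import Pool.Agent.W350.SC.Stm

/-!
# Project SC, part STB: soundness of the second operation
-/

set_option autoImplicit false

namespace Pool.Agent.W350.SC.PSTB

theorem insA_perm (v : ℕ) (l : List ℕ) : (insA v l).Perm (v :: l) := by
  induction l with
  | nil => exact List.Perm.refl _
  | cons y l ih =>
    unfold insA
    cases h : Nat.ble v y with
    | true => exact List.Perm.refl _
    | false =>
      change (y :: insA v l).Perm (v :: y :: l)
      exact (ih.cons y).trans (List.Perm.swap v y l)

theorem coe_ins (v : ℕ) (l : List ℕ) :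
    ((ins v l : List ℕ) : Multiset ℕ) = if v = 0 then (l : Multiset ℕ) else v ::ₘ (l : Multiset ℕ) := by
  unfold ins
  by_cases h : v = 0
  · subst h
    rfl
  · have hb : Nat.beq v 0 = false := by
      cases hv : Nat.beq v 0 with
      | true => exact absurd (Nat.eq_of_beq_eq_true hv) h
      | false => rfl
    rw [hb, if_neg h]
    change ((insA v l : List ℕ) : Multiset ℕ) = _
    rw [Multiset.cons_coe, Multiset.coe_eq_coe]
    exact insA_perm v l

theorem xor_two {i j : ℕ} (h : i ≠ j) : 2 ^ i ^^^ 2 ^ j = 2 ^ i + 2 ^ j := by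
  have key : ∀ i j : ℕ, i < j → 2 ^ j ^^^ 2 ^ i = 2 ^ j + 2 ^ i := by
    intro i j hij
    have h1 : 2 ^ j * 1 + 2 ^ i = 2 ^ j * 1 ||| 2 ^ i :=
      Nat.two_pow_add_eq_or_of_lt (Nat.pow_lt_pow_right (by norm_num) hij) 1
    rw [mul_one] at h1
    rw [h1]
    apply Nat.eq_of_testBit_eq
    intro k
    rw [Nat.testBit_xor, Nat.testBit_or, Nat.testBit_two_pow, Nat.testBit_two_pow]
    by_cases h2 : j = k
    · have h3 : i ≠ k := by omega
      simp [h2, h3]
    · simp [h2]
  rcases Nat.lt_or_gt_of_ne h with h | h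
  · rw [Nat.xor_comm, key i j h, Nat.add_comm]
  · exact key j i h

section

variable {ι : Type}

theorem coe_withB (s : List ℕ) (M : Finset ι) (f : ι → ℕ) (hs : (s : Multiset ℕ) = M.val.map f)
    (e : ℕ) : ((withB e s : List ℕ) : Multiset ℕ) =
      (M.filter (fun c => (f c).testBit e = true)).val.map f := by
  have h1 : ((withB e s : List ℕ) : Multiset ℕ) =
      (s : Multiset ℕ).filter (fun a => a.testBit e = true) := by
    rw [Multiset.filter_coe]
    unfold withB
    simp
  rw [h1, hs, Multiset.filter_map, Finset.filter_val]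
  rfl

theorem coe_noB (s : List ℕ) (M : Finset ι) (f : ι → ℕ) (hs : (s : Multiset ℕ) = M.val.map f)
    (e : ℕ) : ((noB e s : List ℕ) : Multiset ℕ) =
      (M.filter (fun c => (f c).testBit e = false)).val.map f := by
  have h1 : ((noB e s : List ℕ) : Multiset ℕ) =
      (s : Multiset ℕ).filter (fun a => a.testBit e = false) := by
    rw [Multiset.filter_coe]
    unfold noB
    congr 1
    apply List.filter_congr
    intro a _
    cases a.testBit e <;> rfl
  rw [h1, hs, Multiset.filter_map, Finset.filter_val]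
  rfl

theorem pair_list {l : List ℕ} {u v : ℕ} (h : (l : Multiset ℕ) = u ::ₘ {v}) :
    l = [u, v] ∨ l = [v, u] := by
  have h1 : (l : Multiset ℕ) = (([u, v] : List ℕ) : Multiset ℕ) := h
  rw [Multiset.coe_eq_coe] at h1
  have hlen := h1.length_eq
  rw [List.length_cons, List.length_singleton] at hlen
  obtain ⟨x, y, rfl⟩ := List.length_eq_two.1 hlen
  rw [List.cons_perm_iff_perm_erase] at h1
  obtain ⟨hx, hy⟩ := h1
  by_cases hxu : x = u
  · subst hxu
    rw [List.erase_cons_head, List.singleton_perm_singleton] at hy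
    left
    rw [hy]
  · have hxv : x = v := by
      rcases List.mem_cons.1 hx with h | h
      · exact absurd h hxu
      · exact List.mem_singleton.1 h
    subst hxv
    have : ([u, x] : List ℕ).erase x = [u] := by
      rw [List.erase_cons_tail (by simpa using fun h => hxu h.symm), List.erase_cons_head]
    rw [this, List.singleton_perm_singleton] at hy
    right
    rw [hy]

variable [DecidableEq ι]

/-- The change of the signature. -/
def gg (L : ℕ → Finset ι) (e f x : ℕ) (c : ι) : ℕ :=
  (if c ∈ L e then 2 ^ e else 0) ^^^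
    ((if c ∈ L f then 2 ^ f else 0) ^^^ (if c ∈ L x then 2 ^ x else 0))

theorem testBit_gg (L : ℕ → Finset ι) (e f x : ℕ) (c : ι) (k : ℕ) :
    (gg L e f x c).testBit k =
      ((decide (c ∈ L e) && decide (e = k)) ^^ ((decide (c ∈ L f) && decide (f = k)) ^^
        (decide (c ∈ L x) && decide (x = k)))) := by
  unfold gg
  rw [Nat.testBit_xor, Nat.testBit_xor]
  congr 1
  · by_cases h : c ∈ L e <;> simp [h, Nat.testBit_two_pow]
  · congr 1
    · by_cases h : c ∈ L f <;> simp [h, Nat.testBit_two_pow]
    · by_cases h : c ∈ L x <;> simp [h, Nat.testBit_two_pow]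

/-- The main lemma. -/
theorem core (L : ℕ → Finset ι) (bd : Finset ℕ) (e f x : ℕ) (N : Finset ι) (g : ι → ℕ)
    (he : e ∈ bd) (hf : f ∈ bd) (hef : e ≠ f) (hx : x ∉ bd)
    (h1 : ∀ e ∈ bd, ∀ c, c ∈ L e ↔ c ∈ N ∧ (g c).testBit e = true)
    (h2 : ∀ c ∈ N, ∀ e, (g c).testBit e = true → e ∈ bd)
    (a b : ι) (hab : a ≠ b) (ha : a ∈ N) (hb : b ∈ N) (hLx : ∀ c ∈ L x, c ∈ N)
    (O : Finset ι) (hO : ∀ c, c ∈ O ↔ c ∈ N ∧ c ≠ a ∧ c ≠ b)
    (hOL : ∀ c ∈ O, c ∉ L e ∧ c ∉ L f ∧ c ∉ L x) (o : List ℕ)
    (ho : (o : Multiset ℕ) = O.val.map g) :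
    Mt L (insert x ((bd.erase e).erase f))
      (ins (g a ^^^ gg L e f x a) (ins (g b ^^^ gg L e f x b) o)) := by
  have hxe : x ≠ e := fun h => hx (h ▸ he)
  have hxf : x ≠ f := fun h => hx (h ▸ hf)
  -- the bits
  have hbit : ∀ c k, (g c ^^^ gg L e f x c).testBit k = ((g c).testBit k ^^
      ((decide (c ∈ L e) && decide (e = k)) ^^ ((decide (c ∈ L f) && decide (f = k)) ^^
        (decide (c ∈ L x) && decide (x = k))))) := by
    intro c k
    rw [Nat.testBit_xor, testBit_gg]
  have hbx : ∀ c ∈ N, (g c ^^^ gg L e f x c).testBit x = decide (c ∈ L x) := by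
    intro c hc
    rw [hbit]
    have h3 : (g c).testBit x = false := by
      cases h4 : (g c).testBit x with
      | true => exact absurd (h2 c hc x h4) hx
      | false => rfl
    rw [h3]
    simp [hxe.symm, hxf.symm]
  have hbe : ∀ c ∈ N, (g c ^^^ gg L e f x c).testBit e = false := by
    intro c hc
    rw [hbit]
    have h3 : (g c).testBit e = decide (c ∈ L e) := by
      by_cases h4 : c ∈ L e
      · rw [((h1 e he c).1 h4).2]; simp [h4]
      · cases h5 : (g c).testBit e with
        | true => exact absurd ((h1 e he c).2 ⟨hc, h5⟩) h4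
        | false => simp [h4]
    rw [h3]
    simp [hxe, hef.symm]
  have hbf : ∀ c ∈ N, (g c ^^^ gg L e f x c).testBit f = false := by
    intro c hc
    rw [hbit]
    have h3 : (g c).testBit f = decide (c ∈ L f) := by
      by_cases h4 : c ∈ L f
      · rw [((h1 f hf c).1 h4).2]; simp [h4]
      · cases h5 : (g c).testBit f with
        | true => exact absurd ((h1 f hf c).2 ⟨hc, h5⟩) h4
        | false => simp [h4]
    rw [h3]
    simp [hxf, hef]
  have hbk : ∀ c k, k ≠ e → k ≠ f → k ≠ x →
      (g c ^^^ gg L e f x c).testBit k = (g c).testBit k := by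
    intro c k hke hkf hkx
    rw [hbit]
    simp [hke.symm, hkf.symm, hkx.symm]
  have hOg : ∀ c ∈ O, g c ^^^ gg L e f x c = g c := by
    intro c hc
    obtain ⟨h3, h4, h5⟩ := hOL c hc
    unfold gg
    rw [if_neg h3, if_neg h4, if_neg h5]
    simp
  -- the new names
  have haO : a ∉ O := fun h => ((hO a).1 h).2.1 rfl
  have hbO : b ∉ O := fun h => ((hO b).1 h).2.2 rfl
  obtain ⟨N', hN', hmul⟩ : ∃ N' : Finset ι,
      (∀ c, c ∈ N' ↔ c ∈ O ∨ ((c = a ∨ c = b) ∧ g c ^^^ gg L e f x c ≠ 0)) ∧
      ((ins (g a ^^^ gg L e f x a) (ins (g b ^^^ gg L e f x b) o) : List ℕ) : Multiset ℕ)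
        = N'.val.map (fun c => g c ^^^ gg L e f x c) := by
    have hOm : O.val.map (fun c => g c ^^^ gg L e f x c) = (o : Multiset ℕ) := by
      rw [ho]
      exact Multiset.map_congr rfl hOg
    by_cases hva : g a ^^^ gg L e f x a = 0
    · by_cases hvb : g b ^^^ gg L e f x b = 0
      · refine ⟨O, ?_, ?_⟩
        · intro c
          constructor
          · exact Or.inl
          · rintro (h | ⟨h | h, h'⟩)
            · exact h
            · subst h; exact absurd hva h'
            · subst h; exact absurd hvb h'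
        · rw [coe_ins, coe_ins, if_pos hva, if_pos hvb, hOm]
      · refine ⟨insert b O, ?_, ?_⟩
        · intro c
          rw [Finset.mem_insert]
          constructor
          · rintro (h | h)
            · subst h; exact Or.inr ⟨Or.inr rfl, hvb⟩
            · exact Or.inl h
          · rintro (h | ⟨h | h, h'⟩)
            · exact Or.inr h
            · subst h; exact absurd hva h'
            · exact Or.inl h
        · rw [coe_ins, coe_ins, if_pos hva, if_neg hvb, Finset.insert_val_of_notMem hbO,
            Multiset.map_cons, hOm]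
    · by_cases hvb : g b ^^^ gg L e f x b = 0
      · refine ⟨insert a O, ?_, ?_⟩
        · intro c
          rw [Finset.mem_insert]
          constructor
          · rintro (h | h)
            · subst h; exact Or.inr ⟨Or.inl rfl, hva⟩
            · exact Or.inl h
          · rintro (h | ⟨h | h, h'⟩)
            · exact Or.inr h
            · exact Or.inl h
            · subst h; exact absurd hvb h'
        · rw [coe_ins, coe_ins, if_neg hva, if_pos hvb, Finset.insert_val_of_notMem haO,
            Multiset.map_cons, hOm]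
      · refine ⟨insert a (insert b O), ?_, ?_⟩
        · intro c
          rw [Finset.mem_insert, Finset.mem_insert]
          constructor
          · rintro (h | h | h)
            · subst h; exact Or.inr ⟨Or.inl rfl, hva⟩
            · subst h; exact Or.inr ⟨Or.inr rfl, hvb⟩
            · exact Or.inl h
          · rintro (h | ⟨h | h, h'⟩)
            · exact Or.inr (Or.inr h)
            · exact Or.inl h
            · exact Or.inr (Or.inl h)
        · have haO' : a ∉ insert b O := by
            rw [Finset.mem_insert]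
            rintro (h | h)
            · exact hab h
            · exact haO h
          rw [coe_ins, coe_ins, if_neg hva, if_neg hvb, Finset.insert_val_of_notMem haO',
            Multiset.map_cons, Finset.insert_val_of_notMem hbO, Multiset.map_cons, hOm]
  have hN'N : ∀ c ∈ N', c ∈ N := by
    intro c hc
    rcases (hN' c).1 hc with h | ⟨h | h, -⟩
    · exact ((hO c).1 h).1
    · rw [h]; exact ha
    · rw [h]; exact hb
  have hNN' : ∀ c ∈ N, ∀ k, (g c ^^^ gg L e f x c).testBit k = true → c ∈ N' := by
    intro c hc k hk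
    rw [hN']
    by_cases hca : c = a
    · right
      refine ⟨Or.inl hca, fun h0 => ?_⟩
      rw [h0] at hk
      simp at hk
    · by_cases hcb : c = b
      · right
        refine ⟨Or.inr hcb, fun h0 => ?_⟩
        rw [h0] at hk
        simp at hk
      · left
        exact (hO c).2 ⟨hc, hca, hcb⟩
  refine ⟨N', fun c => g c ^^^ gg L e f x c, hmul, ?_, ?_⟩
  · intro k hk c
    rw [Finset.mem_insert, Finset.mem_erase, Finset.mem_erase] at hk
    rcases hk with hk | ⟨hkf, hke, hkb⟩
    · subst hk
      constructor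
      · intro hc
        have hcN := hLx c hc
        have hbit' : (g c ^^^ gg L e f k c).testBit k = true := by
          rw [hbx c hcN]
          simpa using hc
        exact ⟨hNN' c hcN k hbit', hbit'⟩
      · rintro ⟨hc, hbit'⟩
        change (g c ^^^ gg L e f k c).testBit k = true at hbit'
        rw [hbx c (hN'N c hc)] at hbit'
        simpa using hbit'
    · have hkx : k ≠ x := fun h => hx (h ▸ hkb)
      rw [h1 k hkb c]
      constructor
      · rintro ⟨hcN, hb'⟩
        have hbit' : (g c ^^^ gg L e f x c).testBit k = true := by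
          rw [hbk c k hke hkf hkx]
          exact hb'
        exact ⟨hNN' c hcN k hbit', hbit'⟩
      · rintro ⟨hc, hbit'⟩
        change (g c ^^^ gg L e f x c).testBit k = true at hbit'
        rw [hbk c k hke hkf hkx] at hbit'
        exact ⟨hN'N c hc, hbit'⟩
  · intro c hc k hk
    change (g c ^^^ gg L e f x c).testBit k = true at hk
    rw [Finset.mem_insert, Finset.mem_erase, Finset.mem_erase]
    by_cases hkx : k = x
    · exact Or.inl hkx
    · right
      have hke : k ≠ e := by
        intro h
        rw [h, hbe c (hN'N c hc)] at hk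
        exact absurd hk (by simp)
      have hkf : k ≠ f := by
        intro h
        rw [h, hbf c (hN'N c hc)] at hk
        exact absurd hk (by simp)
      rw [hbk c k hke hkf hkx] at hk
      exact ⟨hkf, hke, h2 c (hN'N c hc) k hk⟩

end

end Pool.Agent.W350.SC.PSTB

namespace Pool.Agent.W350.SC

open Pool.Agent.W350.SC.PSTB

theorem pSTB : S_StB := by
  intro ι _ L bd e f x s he hf hef hx hP hM
  obtain ⟨N, g, hs, h1, h2⟩ := hM
  have hxe : x ≠ e := fun h => hx (h ▸ he)
  have hxf : x ≠ f := fun h => hx (h ▸ hf)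
  have hwe := coe_withB s N g hs e
  have hne := coe_noB s N g hs e
  have hwf := coe_withB (noB e s) _ g hne f
  have hoo := coe_noB (noB e s) _ g hne f
  have hE : ∀ c ∈ N, ((g c).testBit e = true ↔ c ∈ L e) := fun c hc =>
    ⟨fun h => (h1 e he c).2 ⟨hc, h⟩, fun h => ((h1 e he c).1 h).2⟩
  have hF : ∀ c ∈ N, ((g c).testBit f = true ↔ c ∈ L f) := fun c hc =>
    ⟨fun h => (h1 f hf c).2 ⟨hc, h⟩, fun h => ((h1 f hf c).1 h).2⟩
  have hEf : ∀ c ∈ N, ((g c).testBit e = false ↔ c ∉ L e) := by
    intro c hc
    rw [← hE c hc]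
    simp
  have hFf : ∀ c ∈ N, ((g c).testBit f = false ↔ c ∉ L f) := by
    intro c hc
    rw [← hF c hc]
    simp
  have hLN : ∀ c ∈ L e, c ∈ N := fun c hc => ((h1 e he c).1 hc).1
  have hLN' : ∀ c ∈ L f, c ∈ N := fun c hc => ((h1 f hf c).1 hc).1
  have hwe' : N.filter (fun c => (g c).testBit e = true) = L e := by
    ext c
    rw [Finset.mem_filter]
    exact ⟨fun h => (hE c h.1).1 h.2, fun h => ⟨hLN c h, (hE c (hLN c h)).2 h⟩⟩
  have hwf' : (N.filter (fun c => (g c).testBit e = false)).filter
      (fun c => (g c).testBit f = true) = L f \ L e := by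
    ext c
    rw [Finset.mem_filter, Finset.mem_filter, Finset.mem_sdiff]
    constructor
    · rintro ⟨⟨hc, h3⟩, h4⟩
      exact ⟨(hF c hc).1 h4, (hEf c hc).1 h3⟩
    · rintro ⟨h3, h4⟩
      have hc := hLN' c h3
      exact ⟨⟨hc, (hEf c hc).2 h4⟩, (hF c hc).2 h3⟩
  rw [hwe'] at hwe
  rw [hwf'] at hwf
  set O := (N.filter (fun c => (g c).testBit e = false)).filter
      (fun c => (g c).testBit f = false) with hOdef
  have hOmem : ∀ c, c ∈ O ↔ c ∈ N ∧ c ∉ L e ∧ c ∉ L f := by
    intro c
    rw [hOdef, Finset.mem_filter, Finset.mem_filter]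
    constructor
    · rintro ⟨⟨hc, h3⟩, h4⟩
      exact ⟨hc, (hEf c hc).1 h3, (hFf c hc).1 h4⟩
    · rintro ⟨hc, h3, h4⟩
      exact ⟨⟨hc, (hEf c hc).2 h3⟩, (hFf c hc).2 h4⟩
  obtain ⟨a, b, hab, hcase⟩ := hP
  have haE : ∀ {X : Finset ι}, X = {a} → ∀ c, c ∈ X ↔ c = a := by
    intro X h c
    rw [h, Finset.mem_singleton]
  have hbE : ∀ {X : Finset ι}, X = {b} → ∀ c, c ∈ X ↔ c = b := by
    intro X h c
    rw [h, Finset.mem_singleton]
  have habE : ∀ {X : Finset ι}, X = {a, b} → ∀ c, c ∈ X ↔ c = a ∨ c = b := by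
    intro X h c
    rw [h, Finset.mem_insert, Finset.mem_singleton]
  rcases hcase with ⟨hLe, hLf, hLx⟩ | ⟨hLe, hLx, hLf⟩ | ⟨hLf, hLx, hLe⟩
  · -- first case
    have hmE := haE hLe
    have hmF := hbE hLf
    have hmX := habE hLx
    have ha : a ∈ N := hLN a ((hmE a).2 rfl)
    have hb : b ∈ N := hLN' b ((hmF b).2 rfl)
    have hd : L f \ L e = {b} := by
      rw [hLe, hLf]
      ext c
      rw [Finset.mem_sdiff, Finset.mem_singleton, Finset.mem_singleton]
      constructor
      · exact fun h => h.1
      · intro h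
        exact ⟨h, fun h' => hab (h'.symm.trans h)⟩
    rw [hLe, Finset.singleton_val, Multiset.map_singleton] at hwe
    rw [hd, Finset.singleton_val, Multiset.map_singleton] at hwf
    have hwe2 : withB e s = [g a] := Multiset.coe_eq_singleton.1 hwe
    have hwf2 : withB f (noB e s) = [g b] := Multiset.coe_eq_singleton.1 hwf
    have htb : (g a).testBit f = false := (hFf a ha).2 (fun h => hab ((hmF a).1 h))
    refine ⟨ins (g a ^^^ gg L e f x a) (ins (g b ^^^ gg L e f x b) (noB f (noB e s))), ?_,
      core L bd e f x N g he hf hef hx h1 h2 a b hab ha hb ?_ O ?_ ?_ _ hoo⟩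
    · have hga : gg L e f x a = 2 ^ e + 2 ^ x := by
        unfold gg
        rw [if_pos ((hmE a).2 rfl), if_neg (fun h => hab ((hmF a).1 h)),
          if_pos ((hmX a).2 (Or.inl rfl)), Nat.zero_xor, xor_two hxe.symm]
      have hgb : gg L e f x b = 2 ^ f + 2 ^ x := by
        unfold gg
        rw [if_neg (fun h => hab ((hmE b).1 h).symm), if_pos ((hmF b).2 rfl),
          if_pos ((hmX b).2 (Or.inr rfl)), Nat.zero_xor, xor_two hxf.symm]
      rw [hga, hgb]
      simp only [stB, hwe2, hwf2, htb, cond_false, List.mem_singleton]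
    · intro c hc
      rcases (hmX c).1 hc with h | h
      · rw [h]; exact ha
      · rw [h]; exact hb
    · intro c
      rw [hOmem, hmE, hmF]
    · intro c hc
      obtain ⟨-, h3, h4⟩ := (hOmem c).1 hc
      refine ⟨h3, h4, fun h => ?_⟩
      rcases (hmX c).1 h with h | h
      · exact h3 ((hmE c).2 h)
      · exact h4 ((hmF c).2 h)
  · -- second case
    have hmE := haE hLe
    have hmX := hbE hLx
    have hmF := habE hLf
    have ha : a ∈ N := hLN a ((hmE a).2 rfl)
    have hb : b ∈ N := hLN' b ((hmF b).2 (Or.inr rfl))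
    have hd : L f \ L e = {b} := by
      rw [hLe, hLf]
      ext c
      rw [Finset.mem_sdiff, Finset.mem_singleton, Finset.mem_insert, Finset.mem_singleton]
      constructor
      · rintro ⟨h | h, h'⟩
        · exact absurd h h'
        · exact h
      · intro h
        exact ⟨Or.inr h, fun h' => hab (h'.symm.trans h)⟩
    rw [hLe, Finset.singleton_val, Multiset.map_singleton] at hwe
    rw [hd, Finset.singleton_val, Multiset.map_singleton] at hwf
    have hwe2 : withB e s = [g a] := Multiset.coe_eq_singleton.1 hwe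
    have hwf2 : withB f (noB e s) = [g b] := Multiset.coe_eq_singleton.1 hwf
    have htb : (g a).testBit f = true := (hF a ha).2 ((hmF a).2 (Or.inl rfl))
    refine ⟨ins (g a ^^^ gg L e f x a) (ins (g b ^^^ gg L e f x b) (noB f (noB e s))), ?_,
      core L bd e f x N g he hf hef hx h1 h2 a b hab ha hb ?_ O ?_ ?_ _ hoo⟩
    · have hga : gg L e f x a = 2 ^ e + 2 ^ f := by
        unfold gg
        rw [if_pos ((hmE a).2 rfl), if_pos ((hmF a).2 (Or.inl rfl)),
          if_neg (fun h => hab ((hmX a).1 h)), Nat.xor_zero, xor_two hef]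
      have hgb : gg L e f x b = 2 ^ f + 2 ^ x := by
        unfold gg
        rw [if_neg (fun h => hab ((hmE b).1 h).symm), if_pos ((hmF b).2 (Or.inr rfl)),
          if_pos ((hmX b).2 rfl), Nat.zero_xor, xor_two hxf.symm]
      rw [hga, hgb]
      simp only [stB, hwe2, hwf2, htb, cond_true, List.mem_singleton]
    · intro c hc
      rw [(hmX c).1 hc]; exact hb
    · intro c
      rw [hOmem, hmE, hmF]
      tauto
    · intro c hc
      obtain ⟨-, h3, h4⟩ := (hOmem c).1 hc
      exact ⟨h3, h4, fun h => h4 ((hmF c).2 (Or.inr ((hmX c).1 h)))⟩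
  · -- third case
    have hmF := haE hLf
    have hmX := hbE hLx
    have hmE := habE hLe
    have ha : a ∈ N := hLN' a ((hmF a).2 rfl)
    have hb : b ∈ N := hLN b ((hmE b).2 (Or.inr rfl))
    have hd : L f \ L e = ∅ := by
      rw [hLe, hLf]
      ext c
      rw [Finset.mem_sdiff, Finset.mem_singleton, Finset.mem_insert, Finset.mem_singleton]
      constructor
      · rintro ⟨h, h'⟩
        exact absurd (Or.inl h) h'
      · intro h
        exact absurd h (Finset.notMem_empty c)
    have hval : ({a, b} : Finset ι).val = a ::ₘ {b} := by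
      rw [Finset.insert_val_of_notMem (by rwa [Finset.mem_singleton]), Finset.singleton_val]
    rw [hLe, hval, Multiset.map_cons, Multiset.map_singleton] at hwe
    rw [hd, Finset.empty_val, Multiset.map_zero] at hwf
    have hwf2 : withB f (noB e s) = [] := (Multiset.coe_eq_zero _).1 hwf
    have hta : (g a).testBit f = true := (hF a ha).2 ((hmF a).2 rfl)
    have htb : (g b).testBit f = false := (hFf b hb).2 (fun h => hab ((hmF b).1 h).symm)
    refine ⟨ins (g a ^^^ gg L e f x a) (ins (g b ^^^ gg L e f x b) (noB f (noB e s))), ?_,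
      core L bd e f x N g he hf hef hx h1 h2 a b hab ha hb ?_ O ?_ ?_ _ hoo⟩
    · have hga : gg L e f x a = 2 ^ e + 2 ^ f := by
        unfold gg
        rw [if_pos ((hmE a).2 (Or.inl rfl)), if_pos ((hmF a).2 rfl),
          if_neg (fun h => hab ((hmX a).1 h)), Nat.xor_zero, xor_two hef]
      have hgb : gg L e f x b = 2 ^ e + 2 ^ x := by
        unfold gg
        rw [if_pos ((hmE b).2 (Or.inr rfl)), if_neg (fun h => hab ((hmF b).1 h).symm),
          if_pos ((hmX b).2 rfl), Nat.zero_xor, xor_two hxe.symm]
      rw [hga, hgb]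
      rcases pair_list hwe with hwe2 | hwe2
      · simp only [stB, hwe2, hwf2, hta, htb, cond_true, cond_false, List.mem_singleton]
      · simp only [stB, hwe2, hwf2, hta, htb, cond_true, cond_false, List.mem_singleton]
    · intro c hc
      rw [(hmX c).1 hc]; exact hb
    · intro c
      rw [hOmem, hmE, hmF]
      tauto
    · intro c hc
      obtain ⟨-, h3, h4⟩ := (hOmem c).1 hc
      exact ⟨h3, h4, fun h => h3 ((hmE c).2 (Or.inr ((hmX c).1 h)))⟩

end Pool.Agent.W350.SC
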